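import Pool.Agent.Lib_helper36.LRD.Spec

/-!
# Clipping of a real matrix and the symmetric part
-/

set_option autoImplicit false
set_option linter.unusedSectionVars false

open Finset Matrix

namespace Pool.Agent.LRD

variable {n : Type} [Fintype n] [DecidableEq n]

theorem dot_self_nonneg (v : n → ℝ) : 0 ≤ v ⬝ᵥ v := by
  unfold dotProduct
  exact Finset.sum_nonneg fun i _ => mul_self_nonneg _

/-- Cauchy-Schwarz -/
theorem dot_cs (a b : n → ℝ) : (a ⬝ᵥ b) ^ 2 ≤ (a ⬝ᵥ a) * (b ⬝ᵥ b) := by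
  unfold dotProduct
  have h := Finset.sum_mul_sq_le_sq_mul_sq Finset.univ a b
  refine h.trans (le_of_eq ?_)
  congr 1 <;> exact Finset.sum_congr rfl fun i _ => sq _

theorem dot_abs (a b : n → ℝ) : |a ⬝ᵥ b| ≤ Real.sqrt (a ⬝ᵥ a) * Real.sqrt (b ⬝ᵥ b) := by
  rw [← Real.sqrt_mul (dot_self_nonneg a)]
  exact Real.abs_le_sqrt (dot_cs a b)

theorem dot_mulVec_tr (O : Matrix n n ℝ) (a b : n → ℝ) : a ⬝ᵥ (O *ᵥ b) = (Oᵀ *ᵥ a) ⬝ᵥ b := by
  rw [dotProduct_mulVec, mulVec_transpose]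

theorem contr_tr {O : Matrix n n ℝ} (hO : Contr O) : Contr Oᵀ := by
  intro v
  set w := Oᵀ *ᵥ v with hw
  have h1 : w ⬝ᵥ w = v ⬝ᵥ (O *ᵥ w) := by
    rw [dot_mulVec_tr O v w, ← hw]
  have h2 := dot_cs v (O *ᵥ w)
  rw [← h1] at h2
  have h3 := hO w
  have h4 := dot_self_nonneg w
  have h5 := dot_self_nonneg v
  rcases eq_or_lt_of_le h4 with h | h
  · rw [← h]
    exact h5
  · have h6 : (w ⬝ᵥ w) ^ 2 ≤ (v ⬝ᵥ v) * (w ⬝ᵥ w) :=
      h2.trans (mul_le_mul_of_nonneg_left h3 h5)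
    have h7 : (w ⬝ᵥ w) * (w ⬝ᵥ w) ≤ (v ⬝ᵥ v) * (w ⬝ᵥ w) := by
      rw [← sq]
      exact h6
    exact le_of_mul_le_mul_right h7 h

theorem contr_sym {A : Matrix n n ℝ} (hA : Contr A) : Contr ((1 / 2 : ℝ) • (A + Aᵀ)) := by
  intro v
  have h1 := hA v
  have h2 := contr_tr hA v
  have h3 : ((1 / 2 : ℝ) • (A + Aᵀ)) *ᵥ v = (1 / 2 : ℝ) • (A *ᵥ v + Aᵀ *ᵥ v) := by
    rw [smul_mulVec, add_mulVec]
  rw [h3, smul_dotProduct, dotProduct_smul, smul_eq_mul, smul_eq_mul]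
  have h4 : (A *ᵥ v + Aᵀ *ᵥ v) ⬝ᵥ (A *ᵥ v + Aᵀ *ᵥ v) ≤
      2 * ((A *ᵥ v) ⬝ᵥ (A *ᵥ v)) + 2 * ((Aᵀ *ᵥ v) ⬝ᵥ (Aᵀ *ᵥ v)) := by
    have h5 := dot_self_nonneg (A *ᵥ v - Aᵀ *ᵥ v)
    rw [sub_dotProduct, dotProduct_sub, dotProduct_sub, dotProduct_comm (Aᵀ *ᵥ v) (A *ᵥ v)] at h5
    rw [add_dotProduct, dotProduct_add, dotProduct_add, dotProduct_comm (Aᵀ *ᵥ v) (A *ᵥ v)]
    linarith
  linarith

theorem sym_herm (A : Matrix n n ℝ) : ((1 / 2 : ℝ) • (A + Aᵀ)).IsHermitian := by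
  unfold IsHermitian
  rw [conjTranspose_eq_transpose_of_trivial, transpose_smul, transpose_add, transpose_transpose,
    add_comm]

theorem sym_form (A : Matrix n n ℝ) (v : n → ℝ) :
    v ⬝ᵥ (((1 / 2 : ℝ) • (A + Aᵀ)) *ᵥ v) = v ⬝ᵥ (A *ᵥ v) := by
  rw [smul_mulVec, add_mulVec, dotProduct_smul, dotProduct_add, smul_eq_mul,
    dot_mulVec_tr Aᵀ, transpose_transpose, dotProduct_comm (A *ᵥ v) v]
  ring

/-- clipping -/
theorem clip (O : Matrix n n ℝ) {R : ℝ} (hR : 0 < R) :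
    ∃ K : Matrix n n ℝ, Contr ((1 / R) • (O * K)) ∧
      ∀ v : n → ℝ, (v - K *ᵥ v) ⬝ᵥ (v - K *ᵥ v) ≤ (1 / R) ^ 2 * ((O *ᵥ v) ⬝ᵥ (O *ᵥ v)) := by
  have hP : (Oᵀ * O).IsHermitian := by
    unfold IsHermitian
    rw [conjTranspose_eq_transpose_of_trivial, transpose_mul, transpose_transpose]
  obtain ⟨U, lam, h1, h2, h3⟩ := spec hP
  have hU : ∀ w : n → ℝ, (Uᵀ *ᵥ w) ⬝ᵥ (Uᵀ *ᵥ w) = w ⬝ᵥ w := by
    intro w
    rw [dotProduct_mulVec, vecMul_transpose, mulVec_mulVec, h1, one_mulVec]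
  have hform : ∀ w : n → ℝ, (O *ᵥ w) ⬝ᵥ (O *ᵥ w) = ∑ a, lam a * (Uᵀ *ᵥ w) a ^ 2 := by
    intro w
    have h4 : (O *ᵥ w) ⬝ᵥ (O *ᵥ w) = w ⬝ᵥ ((Oᵀ * O) *ᵥ w) := by
      rw [← mulVec_mulVec, dot_mulVec_tr Oᵀ, transpose_transpose]
    rw [h4, h3, ← mulVec_mulVec, ← mulVec_mulVec, dot_mulVec_tr U]
    unfold dotProduct
    apply Finset.sum_congr rfl
    intro a _
    rw [mulVec_diagonal]
    ring
  have hlam : ∀ a, 0 ≤ lam a := by
    intro a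
    have h4 := hform (U *ᵥ Pi.single a 1)
    rw [mulVec_mulVec (Pi.single a 1) Uᵀ U, h2, one_mulVec] at h4
    have h5 : ∑ b, lam b * (Pi.single a (1 : ℝ) : n → ℝ) b ^ 2 = lam a := by
      rw [Finset.sum_eq_single a]
      · simp
      · intro b _ hb
        rw [Pi.single_eq_of_ne hb]
        simp
      · intro h
        exact absurd (Finset.mem_univ a) h
    rw [h5] at h4
    rw [← h4]
    exact dot_self_nonneg _
  set hh : n → ℝ := fun a => if lam a ≤ R ^ 2 then 1 else R / Real.sqrt (lam a) with hhh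
  refine ⟨U * diagonal hh * Uᵀ, ?_, ?_⟩
  · intro v
    have h4 : ((1 / R) • (O * (U * diagonal hh * Uᵀ))) *ᵥ v =
        (1 / R) • (O *ᵥ ((U * diagonal hh * Uᵀ) *ᵥ v)) := by
      rw [smul_mulVec, ← mulVec_mulVec]
    rw [h4, smul_dotProduct, dotProduct_smul, smul_eq_mul, smul_eq_mul, hform]
    have h5 : ∀ a, (Uᵀ *ᵥ ((U * diagonal hh * Uᵀ) *ᵥ v)) a = hh a * (Uᵀ *ᵥ v) a := by
      intro a
      rw [← mulVec_mulVec, ← mulVec_mulVec, mulVec_mulVec _ Uᵀ U, h2, one_mulVec, mulVec_diagonal]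
    simp only [h5]
    have h6 : ∑ a, lam a * (hh a * (Uᵀ *ᵥ v) a) ^ 2 ≤ R ^ 2 * (v ⬝ᵥ v) := by
      rw [← hU v]
      unfold dotProduct
      rw [Finset.mul_sum]
      apply Finset.sum_le_sum
      intro a _
      have h7 : lam a * hh a ^ 2 ≤ R ^ 2 := by
        simp only [hhh]
        split_ifs with h8
        · linarith
        · push Not at h8
          have h9 : 0 < lam a := lt_trans (by positivity) h8
          rw [div_pow, Real.sq_sqrt h9.le]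
          field_simp
          exact le_rfl
      calc lam a * (hh a * (Uᵀ *ᵥ v) a) ^ 2 = (lam a * hh a ^ 2) * ((Uᵀ *ᵥ v) a) ^ 2 := by ring
        _ ≤ R ^ 2 * ((Uᵀ *ᵥ v) a) ^ 2 := mul_le_mul_of_nonneg_right h7 (sq_nonneg _)
        _ = _ := by ring
    calc 1 / R * (1 / R * ∑ a, lam a * (hh a * (Uᵀ *ᵥ v) a) ^ 2)
        ≤ 1 / R * (1 / R * (R ^ 2 * (v ⬝ᵥ v))) := by gcongr
      _ = v ⬝ᵥ v := by field_simp
  · intro v
    rw [hform]
    have h4 : ∀ a, (Uᵀ *ᵥ (v - (U * diagonal hh * Uᵀ) *ᵥ v)) a = (1 - hh a) * (Uᵀ *ᵥ v) a := by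
      intro a
      rw [mulVec_sub, Pi.sub_apply, ← mulVec_mulVec, ← mulVec_mulVec, mulVec_mulVec _ Uᵀ U, h2,
        one_mulVec, mulVec_diagonal]
      ring
    rw [← hU]
    unfold dotProduct
    rw [Finset.mul_sum]
    apply Finset.sum_le_sum
    intro a _
    rw [h4]
    have h7 : (1 - hh a) ^ 2 ≤ (1 / R) ^ 2 * lam a := by
      simp only [hhh]
      split_ifs with h8
      · simp
        have := hlam a
        positivity
      · push Not at h8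
        have h9 : 0 < lam a := lt_trans (by positivity) h8
        have h10 : R < Real.sqrt (lam a) := Real.lt_sqrt_of_sq_lt h8
        have h11 : 0 ≤ 1 - R / Real.sqrt (lam a) := by
          rw [sub_nonneg, div_le_one (by linarith)]
          exact h10.le
        have h12 : 1 - R / Real.sqrt (lam a) ≤ 1 := by
          have : 0 ≤ R / Real.sqrt (lam a) := by positivity
          linarith
        have h13 : (1 - R / Real.sqrt (lam a)) ^ 2 ≤ 1 := pow_le_one₀ h11 h12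
        refine h13.trans ?_
        rw [one_div, inv_pow, ← div_eq_inv_mul, one_le_div (by positivity)]
        exact h8.le
    calc (1 - hh a) * (Uᵀ *ᵥ v) a * ((1 - hh a) * (Uᵀ *ᵥ v) a)
        = (1 - hh a) ^ 2 * (Uᵀ *ᵥ v) a ^ 2 := by ring
      _ ≤ ((1 / R) ^ 2 * lam a) * (Uᵀ *ᵥ v) a ^ 2 := mul_le_mul_of_nonneg_right h7 (sq_nonneg _)
      _ = _ := by ring

end Pool.Agent.LRD
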