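import Pool.Agent.Lib_helper36.LRD.Main

/-!
# The decoding lemma with an explicit error term
-/

set_option autoImplicit false
set_option linter.unusedSectionVars false

open Finset Matrix

namespace Pool.Agent.LRD

open Pool.Agent.LR2

/-- explicit bound of the error term: `N` the dimension -/
theorem decEps_le {X Y : Type} [Fintype X] [Fintype Y] (μ : X → ℝ) (ν : Y → ℝ) (M : X → Y → ℝ)
    (U A B : ℝ) {N m : ℕ} (hN : 1 ≤ N) (hm : 1 ≤ m) :
    decEps μ ν M U A B N (⌈Real.log N⌉₊ + 1) m ≤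
      Real.sqrt (12 * (Real.log N + 2) / m) +
        (2 * (A + B * (m * Real.log 2 + 2)) + (U - em μ ν M)) := by
  unfold decEps
  apply add_le_add _ le_rfl
  set p : ℕ := ⌈Real.log N⌉₊ + 1 with hp
  have hm0 : (0 : ℝ) < m := by exact_mod_cast hm
  have hm1 : (1 : ℝ) ≤ m := by exact_mod_cast hm
  have hN0 : (0 : ℝ) < N := by exact_mod_cast hN
  have hlog : 0 ≤ Real.log N := Real.log_nonneg (by exact_mod_cast hN)
  have hp1 : (p : ℝ) ≤ Real.log N + 2 := by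
    rw [hp]
    push_cast
    have := Nat.ceil_lt_add_one hlog
    linarith
  have hp0 : Real.log N ≤ (p : ℝ) := by
    rw [hp]
    push_cast
    have := Nat.le_ceil (Real.log N)
    linarith
  have hpp : (0 : ℝ) < p := by
    rw [hp]
    positivity
  have hpp1 : (1 : ℝ) ≤ p := by
    rw [hp]
    push_cast
    have : (0 : ℝ) ≤ (⌈Real.log N⌉₊ : ℝ) := Nat.cast_nonneg _
    linarith
  have h1 : (N : ℝ) ^ ((1 : ℝ) / p) ≤ 2.7182818286 := by
    have h2 : (N : ℝ) ^ ((1 : ℝ) / p) = Real.exp (Real.log N / p) := by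
      rw [Real.rpow_def_of_pos hN0]
      congr 1
      ring
    rw [h2]
    calc Real.exp (Real.log N / p) ≤ Real.exp 1 := by
          apply Real.exp_le_exp.mpr
          rw [div_le_one hpp]
          exact hp0
      _ ≤ _ := Real.exp_one_lt_d9.le
  have h2 : 1 + (2 * (2 * p - 1) * (N : ℝ) ^ ((1 : ℝ) / p)) * m ≤ 12 * (Real.log N + 2) * m := by
    have h3 : (2 * (2 * p - 1) * (N : ℝ) ^ ((1 : ℝ) / p)) ≤ 2 * (2 * p - 1) * 2.7182818286 :=
      mul_le_mul_of_nonneg_left h1 (by linarith)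
    have h4 : (2 * (2 * p - 1) * (N : ℝ) ^ ((1 : ℝ) / p)) * m ≤
        (2 * (2 * p - 1) * 2.7182818286) * m := mul_le_mul_of_nonneg_right h3 hm0.le
    have h5 : (p : ℝ) * m ≤ (Real.log N + 2) * m := mul_le_mul_of_nonneg_right hp1 hm0.le
    nlinarith
  calc Real.sqrt (1 + (2 * (2 * p - 1) * (N : ℝ) ^ ((1 : ℝ) / p)) * m) / m
      ≤ Real.sqrt (12 * (Real.log N + 2) * m) / m :=
        div_le_div_of_nonneg_right (Real.sqrt_le_sqrt h2) hm0.le
    _ = Real.sqrt (12 * (Real.log N + 2) / m) := by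
        rw [div_eq_iff hm0.ne']
        have h3 : Real.sqrt (12 * (Real.log N + 2) / m) * m =
            Real.sqrt (12 * (Real.log N + 2) / m) * Real.sqrt ((m : ℝ) ^ 2) := by
          rw [Real.sqrt_sq hm0.le]
        rw [h3, ← Real.sqrt_mul (by positivity)]
        congr 1
        field_simp

/-- **decoding lemma, explicit**: with `Δ = sqrt (12 (log N + 2) / m) + 2 (A + B (m log 2 + 2)) +
(U - E M)` one has `tg ^ 2 ≤ 8 Δ sqrt (E |O Ψ|^2) sqrt (E |Oᵀ Ψ|^2)`. -/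
theorem dec_explicit {X Y n : Type} [Fintype X] [Fintype Y] [Fintype n] [DecidableEq n] [Nonempty n]
    [Inhabited Y] {μ : X → ℝ} {ν : Y → ℝ} (hμ : IsPr μ) (hν : IsPr ν)
    {M : X → Y → ℝ} (hM : ∀ x y, M x y = 1 ∨ M x y = -1)
    {U A B : ℝ} (hU1 : |U| ≤ 1) (hA : 0 ≤ A) (hB : 0 ≤ B) (hU : UPR μ ν M U A B) {Ψ : X → n → ℝ}
    (hΨ : ∀ x, Ψ x ⬝ᵥ Ψ x ≤ 1) (O : Y → Matrix n n ℝ) {m : ℕ} (hm : 1 ≤ m) :
    tg μ ν M U Ψ O ^ 2 ≤ 8 * ((Real.sqrt (12 * (Real.log (Fintype.card n) + 2) / m) +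
        (2 * (A + B * (m * Real.log 2 + 2)) + (U - em μ ν M))) *
      (Real.sqrt (∑ x, ∑ y, μ x * ν y * ((O y *ᵥ Ψ x) ⬝ᵥ (O y *ᵥ Ψ x))) *
        Real.sqrt (∑ x, ∑ y, μ x * ν y * (((O y)ᵀ *ᵥ Ψ x) ⬝ᵥ ((O y)ᵀ *ᵥ Ψ x))))) := by
  refine (dec_sq hμ hν hM hU1 hA hB hU hΨ O (p := ⌈Real.log (Fintype.card n)⌉₊ + 1) (by omega)
    hm).trans ?_
  apply mul_le_mul_of_nonneg_left _ (by norm_num)
  apply mul_le_mul_of_nonneg_right _ (by positivity)
  exact decEps_le μ ν M U A B Fintype.card_pos hm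

end Pool.Agent.LRD
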