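import Pool.Agent.Lib_helper36.LRD.Mart
import Pool.Agent.Lib_helper59.LR2.Freeze

/-!
# The decoding lemma for contractions
-/

set_option autoImplicit false
set_option linter.unusedSectionVars false

open Finset Matrix

namespace Pool.Agent.LRD

open Pool.Agent.LR2

section Cells

variable {X Y T : Type} [Fintype X] [Fintype Y] [DecidableEq T]

/-- the measure of a cell -/
noncomputable def cmu (μ : X → ℝ) (κ : X → T) (x x' : X) : ℝ :=
  (if κ x' = κ x then μ x' else 0) / cms μ κ x

theorem cmu_pr {μ : X → ℝ} (hμ : IsPr μ) (κ : X → T) {x : X} (hx : μ x ≠ 0) :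
    IsPr (cmu μ κ x) := by
  have h := cms_pos hμ.nonneg κ hx
  constructor
  · intro x'
    unfold cmu
    apply div_nonneg _ h.le
    split_ifs
    · exact hμ.nonneg x'
    · exact le_rfl
  · unfold cmu
    rw [← Finset.sum_div]
    exact div_self h.ne'

theorem cmu_ac {μ : X → ℝ} (κ : X → T) (x : X) : AC (cmu μ κ x) μ := by
  intro x' hx'
  unfold cmu
  simp [hx']

theorem cmu_KL {μ : X → ℝ} (hμ : IsPr μ) (κ : X → T) {x : X} (hx : μ x ≠ 0) :
    KL (cmu μ κ x) μ = Real.log (1 / cms μ κ x) := by
  have h := cms_pos hμ.nonneg κ hx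
  have h1 := (cmu_pr hμ κ hx).sum
  unfold KL
  calc ∑ x', cmu μ κ x x' * Real.log (cmu μ κ x x' / μ x')
      = ∑ x', cmu μ κ x x' * Real.log (1 / cms μ κ x) := by
        apply Finset.sum_congr rfl
        intro x' _
        unfold cmu
        by_cases h2 : κ x' = κ x
        · rw [if_pos h2]
          by_cases h3 : μ x' = 0
          · simp [h3]
          · congr 2
            field_simp
        · rw [if_neg h2]
          simp
    _ = _ := by rw [← Finset.sum_mul, h1, one_mul]

theorem cmean_cmu (μ : X → ℝ) (κ : X → T) (M : X → Y → ℝ) (x : X) (y : Y) :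
    cmean (cmu μ κ x) M y = cmn μ κ (fun x' => M x' y) x := by
  unfold cmean cmu cmn
  rw [Finset.sum_div]
  apply Finset.sum_congr rfl
  intro x' _
  split_ifs
  · ring
  · simp

/-- entropy bound -/
theorem entropy_le {μ : X → ℝ} (hμ : IsPr μ) (κ : X → T) (s : Finset T) (hs : ∀ x, κ x ∈ s) :
    ∑ x, μ x * Real.log (1 / cms μ κ x) ≤ Real.log s.card := by
  have hcard : 0 < s.card := by
    rcases isEmpty_or_nonempty X with hX | ⟨⟨x⟩⟩
    · have := hμ.sum
      simp at this
    · exact Finset.card_pos.mpr ⟨κ x, hs x⟩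
  have hc : (0 : ℝ) < s.card := by exact_mod_cast hcard
  have h1 : ∀ x, μ x * Real.log (1 / cms μ κ x) ≤
      μ x * Real.log s.card + (μ x / (cms μ κ x * s.card) - μ x) := by
    intro x
    by_cases h0 : μ x = 0
    · simp [h0]
    · have h := cms_pos hμ.nonneg κ h0
      have h2 : Real.log (1 / cms μ κ x) = Real.log s.card +
          Real.log (1 / (cms μ κ x * s.card)) := by
        rw [← Real.log_mul hc.ne' (by positivity)]
        congr 1
        field_simp
      have h3 := Real.log_le_sub_one_of_pos (by positivity : 0 < 1 / (cms μ κ x * s.card))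
      rw [h2, mul_add]
      have h4 := mul_le_mul_of_nonneg_left h3 (hμ.nonneg x)
      have h5 : μ x * (1 / (cms μ κ x * s.card) - 1) = μ x / (cms μ κ x * s.card) - μ x := by
        field_simp
      linarith
  have h2 : ∑ x, μ x / (cms μ κ x * s.card) ≤ 1 := by
    have h3 : ∀ x, μ x / (cms μ κ x * s.card) =
        ∑ t ∈ s, (if κ x = t then μ x / (∑ x', if κ x' = t then μ x' else 0) else 0) / s.card := by
      intro x
      rw [← Finset.sum_div, Finset.sum_ite_eq s (κ x), if_pos (hs x)]
      unfold cms
      rw [div_div]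
    simp only [h3]
    rw [Finset.sum_comm]
    calc ∑ t ∈ s, ∑ x, (if κ x = t then μ x / (∑ x', if κ x' = t then μ x' else 0) else 0) / s.card
        ≤ ∑ t ∈ s, 1 / (s.card : ℝ) := by
          apply Finset.sum_le_sum
          intro t _
          rw [← Finset.sum_div]
          apply div_le_div_of_nonneg_right _ hc.le
          have h4 : ∑ x, (if κ x = t then μ x / (∑ x', if κ x' = t then μ x' else 0) else 0) =
              (∑ x, if κ x = t then μ x else 0) / (∑ x', if κ x' = t then μ x' else 0) := by
            rw [Finset.sum_div]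
            apply Finset.sum_congr rfl
            intro x _
            split_ifs
            · rfl
            · simp
          rw [h4]
          exact div_self_le_one _
      _ = 1 := by
          rw [Finset.sum_const, nsmul_eq_mul]
          field_simp
  calc ∑ x, μ x * Real.log (1 / cms μ κ x)
      ≤ ∑ x, (μ x * Real.log s.card + (μ x / (cms μ κ x * s.card) - μ x)) :=
        Finset.sum_le_sum fun x _ => h1 x
    _ = Real.log s.card + (∑ x, μ x / (cms μ κ x * s.card) - 1) := by
        rw [Finset.sum_add_distrib, Finset.sum_sub_distrib, ← Finset.sum_mul, hμ.sum, one_mul]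
    _ ≤ _ := by linarith

/-- the conditional means are close to `U` -/
theorem cell_dev {μ : X → ℝ} {ν : Y → ℝ} (hμ : IsPr μ) (hν : IsPr ν) {M : X → Y → ℝ}
    {U A B : ℝ} (hA : 0 ≤ A) (hB : 0 ≤ B) (hU : UPR μ ν M U A B) (κ : X → T) (s : Finset T)
    (hs : ∀ x, κ x ∈ s) :
    ∑ x, μ x * ∑ y, ν y * |cmn μ κ (fun x' => M x' y) x - U| ≤
      2 * (A + B * (Real.log s.card + 2)) + (U - em μ ν M) := by
  have hKν : KL ν ν = 0 := by
    unfold KL
    apply Finset.sum_eq_zero
    intro y _
    by_cases h : ν y = 0
    · simp [h]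
    · rw [div_self h, Real.log_one, mul_zero]
  have hac : AC ν ν := fun y h => h
  have h1 : ∀ x, μ x * ∑ y, ν y * |cmn μ κ (fun x' => M x' y) x - U| ≤
      μ x * (2 * (A + B * (Real.log (1 / cms μ κ x) + 2)) + (U - em (cmu μ κ x) ν M)) := by
    intro x
    by_cases h0 : μ x = 0
    · simp [h0]
    · apply mul_le_mul_of_nonneg_left _ (hμ.nonneg x)
      have h2 := freeze_abs hν hμ hA hB hU.swap hν (cmu_pr hμ κ h0) hac (cmu_ac κ x)
      rw [em_swap, hKν, zero_add, cmu_KL hμ κ h0] at h2
      refine le_trans (le_of_eq ?_) h2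
      apply Finset.sum_congr rfl
      intro y _
      congr 2
      rw [← cmean_cmu]
      rfl
  have h2 : ∑ x, μ x * em (cmu μ κ x) ν M = em μ ν M := by
    have h3 : ∀ x, em (cmu μ κ x) ν M = cmn μ κ (fun x' => rmean ν M x') x := by
      intro x
      rw [em_row]
      unfold cmu cmn
      rw [Finset.sum_div]
      apply Finset.sum_congr rfl
      intro x' _
      split_ifs
      · ring
      · simp
    simp only [h3]
    have h4 := cmn_tower hμ.nonneg κ (fun x' => rmean ν M x') (fun _ => 1) (fun _ _ _ => rfl)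
    simp only [mul_one] at h4
    rw [h4, em_row]
  calc ∑ x, μ x * ∑ y, ν y * |cmn μ κ (fun x' => M x' y) x - U|
      ≤ ∑ x, μ x * (2 * (A + B * (Real.log (1 / cms μ κ x) + 2)) + (U - em (cmu μ κ x) ν M)) :=
        Finset.sum_le_sum fun x _ => h1 x
    _ = 2 * (A + B * (∑ x, μ x * Real.log (1 / cms μ κ x) + 2)) + (U - em μ ν M) := by
        have h5 : ∀ x, μ x * (2 * (A + B * (Real.log (1 / cms μ κ x) + 2)) +
            (U - em (cmu μ κ x) ν M)) = (2 * (A + 2 * B) + U) * μ x +
            2 * B * (μ x * Real.log (1 / cms μ κ x)) - μ x * em (cmu μ κ x) ν M := by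
          intro x; ring
        simp only [h5]
        rw [Finset.sum_sub_distrib, Finset.sum_add_distrib, ← Finset.mul_sum, ← Finset.mul_sum,
          hμ.sum, h2]
        ring
    _ ≤ _ := by
        have h6 := entropy_le hμ κ s hs
        have h7 := mul_le_mul_of_nonneg_left h6 hB
        linarith

end Cells

end Pool.Agent.LRD
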