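import Pool.Agent.Lib_helper36.LRD.Dec1

/-!
# The decoding lemma for symmetric contractions
-/

set_option autoImplicit false
set_option linter.unusedSectionVars false

open Finset Matrix

namespace Pool.Agent.LRD

open Pool.Agent.LR2

theorem av_round {Z : Type} [Fintype Z] [Inhabited Z] {w : Z → ℝ} (hw1 : ∑ z, w z = 1) {i K : ℕ}
    (hi : i < K) (G : (ℕ → Z) → Z → ℝ)
    (hG : ∀ ζ j z v, i ≤ j → G (Function.update ζ j z) v = G ζ v) :
    av w K (fun ζ => G ζ (ζ i)) = av w i (fun ζ => ∑ z, w z * G ζ z) := by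
  rw [av_prefix hw1 (Nat.succ_le_of_lt hi) (fun ζ => G ζ (ζ i))]
  · rw [av_succ]
    have h1 : ∀ z, (fun ζ : ℕ → Z => G (Function.update ζ i z) (Function.update ζ i z i)) =
        fun ζ => G ζ z := by
      intro z
      funext ζ
      rw [hG ζ i z _ le_rfl, Function.update_self]
    simp only [h1, ← av_smul]
    rw [← av_sum]
  · intro ζ j z hj
    show G (Function.update ζ j z) (Function.update ζ j z i) = G ζ (ζ i)
    rw [hG ζ j z _ (by omega), Function.update_of_ne (by omega)]

section Main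

variable {X Y n : Type} [Fintype X] [Fintype Y] [Fintype n] [DecidableEq n]

/-- the correlation of `M - U` with a family of quadratic forms -/
noncomputable def tg (μ : X → ℝ) (ν : Y → ℝ) (M : X → Y → ℝ) (U : ℝ) (Ψ : X → n → ℝ)
    (O : Y → Matrix n n ℝ) : ℝ := ∑ x, ∑ y, μ x * ν y * ((M x y - U) * (Ψ x ⬝ᵥ (O y *ᵥ Ψ x)))

theorem key_update {M : X → Y → ℝ} (ζ : ℕ → Y) {i j : ℕ} (h : i ≤ j) (z : Y) (x : X) :
    key M (Function.update ζ j z) i x = key M ζ i x := by
  funext k
  unfold key
  rw [Function.update_of_ne]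
  have := k.2
  omega

theorem form_abs {O : Matrix n n ℝ} (hO : Contr O) {v : n → ℝ} (hv : v ⬝ᵥ v ≤ 1) :
    |v ⬝ᵥ (O *ᵥ v)| ≤ 1 := by
  have h1 := hO v
  have h2 : ∀ a b : n → ℝ, |a ⬝ᵥ b| ≤ (a ⬝ᵥ a + b ⬝ᵥ b) / 2 := by
    intro a b
    have h3 : 0 ≤ (a - b) ⬝ᵥ (a - b) := by
      unfold dotProduct
      exact Finset.sum_nonneg fun i _ => mul_self_nonneg _
    have h4 : 0 ≤ (a + b) ⬝ᵥ (a + b) := by
      unfold dotProduct
      exact Finset.sum_nonneg fun i _ => mul_self_nonneg _
    rw [sub_dotProduct, dotProduct_sub, dotProduct_sub, dotProduct_comm b a] at h3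
    rw [add_dotProduct, dotProduct_add, dotProduct_add, dotProduct_comm b a] at h4
    rw [abs_le]
    constructor <;> linarith
  have h3 := h2 v (O *ᵥ v)
  linarith

theorem dec_contr [Inhabited Y] {μ : X → ℝ} {ν : Y → ℝ} (hμ : IsPr μ) (hν : IsPr ν)
    {M : X → Y → ℝ} (hM : ∀ x y, M x y = 1 ∨ M x y = -1)
    {U A B : ℝ} (hA : 0 ≤ A) (hB : 0 ≤ B) (hU : UPR μ ν M U A B) {Ψ : X → n → ℝ}
    (hΨ : ∀ x, Ψ x ⬝ᵥ Ψ x ≤ 1) {O : Y → Matrix n n ℝ} (hO : ∀ y, (O y).IsHermitian)
    (hO1 : ∀ y, Contr (O y)) {p : ℕ} (hp : 1 ≤ p) {m : ℕ} (hm : 1 ≤ m) :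
    m * tg μ ν M U Ψ O ≤ Real.sqrt (1 +
      (2 * (2 * p - 1) * (Fintype.card n : ℝ) ^ ((1 : ℝ) / p)) * m) +
      m * (2 * (A + B * (m * Real.log 2 + 2)) + (U - em μ ν M)) := by
  classical
  have hM1 : ∀ x y, |M x y| ≤ 1 := by
    intro x y
    rcases hM x y with h | h <;> rw [h] <;> norm_num
  set q : X → Y → ℝ := fun x y => Ψ x ⬝ᵥ (O y *ᵥ Ψ x) with hq
  have hq1 : ∀ x y, |q x y| ≤ 1 := fun x y => form_abs (hO1 y) (hΨ x)
  -- the average
  have h1 : av ν m (fun η => ∑ i ∈ range m, ∑ x, μ x * ((M x (η i) - U) * q x (η i))) =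
      m * tg μ ν M U Ψ O := by
    rw [av_sum]
    have h2 : ∀ i ∈ range m, av ν m (fun η => ∑ x, μ x * ((M x (η i) - U) * q x (η i))) =
        tg μ ν M U Ψ O := by
      intro i hi
      rw [Finset.mem_range] at hi
      have h3 := av_round hν.sum hi (fun _ y => ∑ x, μ x * ((M x y - U) * q x y))
        (fun _ _ _ _ _ => rfl)
      rw [h3, av_const hν.sum]
      unfold tg
      rw [Finset.sum_comm]
      apply Finset.sum_congr rfl
      intro y _
      rw [Finset.mul_sum]
      apply Finset.sum_congr rfl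
      intro x _
      ring
    rw [Finset.sum_congr rfl h2, Finset.sum_const, card_range, nsmul_eq_mul]
  -- the decomposition
  have h2 : ∀ η : ℕ → Y, ∑ i ∈ range m, ∑ x, μ x * ((M x (η i) - U) * q x (η i)) ≤
      Real.sqrt (1 + (2 * (2 * p - 1) * (Fintype.card n : ℝ) ^ ((1 : ℝ) / p)) * m) +
      ∑ i ∈ range m, ∑ x, μ x * |cmn μ (key M η i) (fun x' => M x' (η i)) x - U| := by
    intro η
    have h3 : ∑ i ∈ range m, ∑ x, μ x * ((M x (η i) - U) * q x (η i)) =
        (∑ x, μ x * (Ψ x ⬝ᵥ (SS μ M η O m x *ᵥ Ψ x))) +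
        ∑ i ∈ range m, ∑ x, μ x *
          ((cmn μ (key M η i) (fun x' => M x' (η i)) x - U) * q x (η i)) := by
      have h4 : ∀ x, Ψ x ⬝ᵥ (SS μ M η O m x *ᵥ Ψ x) = ∑ i ∈ range m, dd μ M η i x * q x (η i) := by
        intro x
        unfold SS
        rw [Matrix.sum_mulVec, dotProduct_sum]
        apply Finset.sum_congr rfl
        intro i _
        rw [smul_mulVec, dotProduct_smul, smul_eq_mul]
      simp only [h4, Finset.mul_sum]
      rw [Finset.sum_comm (s := (Finset.univ : Finset X)), ← Finset.sum_add_distrib]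
      apply Finset.sum_congr rfl
      intro i _
      rw [← Finset.sum_add_distrib]
      apply Finset.sum_congr rfl
      intro x _
      unfold dd
      ring
    rw [h3]
    apply add_le_add
    · refine le_trans ?_ (mart_form hμ hM1 hO hO1 hp η m Ψ hΨ)
      apply Finset.sum_le_sum
      intro x _
      exact mul_le_mul_of_nonneg_left (le_abs_self _) (hμ.nonneg x)
    · apply Finset.sum_le_sum
      intro i _
      apply Finset.sum_le_sum
      intro x _
      apply mul_le_mul_of_nonneg_left _ (hμ.nonneg x)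
      refine (le_abs_self _).trans ?_
      rw [abs_mul]
      exact mul_le_of_le_one_right (abs_nonneg _) (hq1 _ _)
  have h3 := av_mono hν.nonneg m h2
  rw [h1, av_add, av_const hν.sum, av_sum] at h3
  refine h3.trans ?_
  apply add_le_add le_rfl
  have h4 : ∀ i ∈ range m, av ν m (fun η => ∑ x, μ x *
      |cmn μ (key M η i) (fun x' => M x' (η i)) x - U|) ≤
      2 * (A + B * (m * Real.log 2 + 2)) + (U - em μ ν M) := by
    intro i hi
    rw [Finset.mem_range] at hi
    have h5 := av_round hν.sum hi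
      (fun η y => ∑ x, μ x * |cmn μ (key M η i) (fun x' => M x' y) x - U|) (by
        intro ζ j z v hj
        apply Finset.sum_congr rfl
        intro x _
        have h6 : key M (Function.update ζ j z) i = key M ζ i := by
          funext x'
          exact key_update ζ hj z x'
        rw [h6])
    rw [h5]
    have h6 : ∀ η : ℕ → Y, ∑ y, ν y * ∑ x, μ x * |cmn μ (key M η i) (fun x' => M x' y) x - U| ≤
        2 * (A + B * (m * Real.log 2 + 2)) + (U - em μ ν M) := by
      intro η
      have h7 := cell_dev hμ hν hA hB hU (key M η i)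
        (Fintype.piFinset fun _ : Fin i => ({1, -1} : Finset ℝ)) (by
          intro x
          rw [Fintype.mem_piFinset]
          intro k
          unfold key
          rcases hM x (η k) with h | h <;> simp [h])
      have h8 : ∑ y, ν y * ∑ x, μ x * |cmn μ (key M η i) (fun x' => M x' y) x - U| =
          ∑ x, μ x * ∑ y, ν y * |cmn μ (key M η i) (fun x' => M x' y) x - U| := by
        simp only [Finset.mul_sum]
        rw [Finset.sum_comm]
        apply Finset.sum_congr rfl
        intro x _
        apply Finset.sum_congr rfl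
        intro y _
        ring
      rw [h8]
      refine h7.trans ?_
      have h9 : Real.log ((Fintype.piFinset fun _ : Fin i => ({1, -1} : Finset ℝ)).card : ℝ) ≤
          m * Real.log 2 := by
        have h10 : (Fintype.piFinset fun _ : Fin i => ({1, -1} : Finset ℝ)).card = 2 ^ i := by
          rw [Fintype.card_piFinset]
          have : ({1, -1} : Finset ℝ).card = 2 := by
            rw [Finset.card_pair]
            norm_num
          simp [this]
        rw [h10]
        push_cast
        rw [Real.log_pow]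
        have h11 : (i : ℝ) ≤ m := by exact_mod_cast hi.le
        exact mul_le_mul_of_nonneg_right h11 (Real.log_nonneg (by norm_num))
      have h10 := mul_le_mul_of_nonneg_left h9 hB
      linarith
    have h7 := av_mono hν.nonneg i h6
    rwa [av_const hν.sum] at h7
  calc _ ≤ ∑ i ∈ range m, (2 * (A + B * (m * Real.log 2 + 2)) + (U - em μ ν M)) :=
        Finset.sum_le_sum h4
    _ = _ := by rw [Finset.sum_const, card_range, nsmul_eq_mul]

end Main

end Pool.Agent.LRD
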