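import Pool.Agent.Lib_helper36.LRD.Legs
import Pool.Agent.Lib_helper59.LR2.Rank

/-!
# The decoding lemma for averaged copies
-/

set_option autoImplicit false
set_option linter.unusedSectionVars false

open Finset Matrix

namespace Pool.Agent.LRD

open Pool.Agent.LR2

variable {L D : Type} [Fintype L] [DecidableEq L] [Fintype D] [DecidableEq D]

/-- norm of the partial contraction of `X` with `b` on the legs outside `S` -/
noncomputable def nS (b : L → D → ℝ) (X : (L → D) → ℝ) (S : Finset L) : ℝ :=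
  ∑ w : L → D, (∏ s, (if s ∈ S then 1 else b s (w s) ^ 2)) *
    (∑ u : L → D, X u * ∏ s, (if s ∈ S then (if u s = w s then 1 else 0) else b s (u s))) ^ 2

theorem nS_nonneg (b : L → D → ℝ) (X : (L → D) → ℝ) (S : Finset L) : 0 ≤ nS b X S := by
  unfold nS
  apply Finset.sum_nonneg
  intro w _
  apply mul_nonneg _ (sq_nonneg _)
  apply Finset.prod_nonneg
  intro s _
  split_ifs
  · exact zero_le_one
  · positivity

theorem sum_prod_leg (φ : L → D → ℝ) : ∑ w : L → D, ∏ s, φ s (w s) = ∏ s, ∑ v, φ s v := by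
  rw [Finset.prod_univ_sum, Fintype.piFinset_univ]

theorem nS_eq {b : L → D → ℝ} (hb : ∀ s, ∑ v, b s v ^ 2 = 1) (X : (L → D) → ℝ) (S : Finset L) :
    nS b X S = ∑ u : L → D, ∑ u' : L → D, X u * X u' *
      ∏ s, (if s ∈ S then (if u s = u' s then 1 else 0) else b s (u s) * b s (u' s)) := by
  unfold nS
  have h1 : ∀ w : L → D, (∏ s, (if s ∈ S then (1 : ℝ) else b s (w s) ^ 2)) *
    (∑ u : L → D, X u * ∏ s, (if s ∈ S then (if u s = w s then 1 else 0) else b s (u s))) ^ 2 =
    ∑ u : L → D, ∑ u' : L → D, X u * X u' * ∏ s, ((if s ∈ S then 1 else b s (w s) ^ 2) *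
      ((if s ∈ S then (if u s = w s then 1 else 0) else b s (u s)) *
      (if s ∈ S then (if u' s = w s then 1 else 0) else b s (u' s)))) := by
    intro w
    rw [sq, Finset.sum_mul_sum, Finset.mul_sum]
    apply Finset.sum_congr rfl
    intro u _
    rw [Finset.mul_sum]
    apply Finset.sum_congr rfl
    intro u' _
    rw [Finset.prod_mul_distrib, Finset.prod_mul_distrib]
    ring
  simp only [h1]
  rw [Finset.sum_comm]
  apply Finset.sum_congr rfl
  intro u _
  rw [Finset.sum_comm]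
  apply Finset.sum_congr rfl
  intro u' _
  rw [← Finset.mul_sum, sum_prod_leg (fun s v => (if s ∈ S then (1 : ℝ) else b s v ^ 2) *
      ((if s ∈ S then (if u s = v then 1 else 0) else b s (u s)) *
      (if s ∈ S then (if u' s = v then 1 else 0) else b s (u' s))))]
  congr 1
  apply Finset.prod_congr rfl
  intro s _
  by_cases h : s ∈ S
  · simp only [h, if_true, one_mul]
    by_cases h2 : u s = u' s
    · simp [h2]
    · rw [if_neg h2]
      apply Finset.sum_eq_zero
      intro v _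
      by_cases h3 : u s = v
      · have : u' s ≠ v := fun h4 => h2 (h3.trans h4.symm)
        simp [this]
      · simp [h3]
  · simp only [h, if_false]
    rw [← Finset.sum_mul, hb s, one_mul]

theorem sum_prod_c {t : L → ℕ} (φ : ∀ s, Fin (t s) → ℝ) :
    ∑ c : (∀ s, Fin (t s)), ∏ s, φ s (c s) = ∏ s, ∑ j, φ s j := by
  rw [Finset.prod_univ_sum, Fintype.piFinset_univ]

theorem pair_avg {t : ℕ} (ht : 1 ≤ t) (a B : ℝ) :
    (1 / (t : ℝ)) * (1 / (t : ℝ)) * ∑ j : Fin t, ∑ j' : Fin t, (if j = j' then a else B) =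
      (1 / (t : ℝ)) * a + (1 - 1 / (t : ℝ)) * B := by
  have ht0 : (t : ℝ) ≠ 0 := by
    have : t ≠ 0 := by omega
    exact_mod_cast this
  have h1 : ∀ j : Fin t, ∑ j' : Fin t, (if j = j' then a else B) = (a - B) + t * B := by
    intro j
    have h2 : ∀ j' : Fin t, (if j = j' then a else B) = (if j = j' then a - B else 0) + B := by
      intro j'
      split_ifs <;> ring
    simp only [h2]
    rw [Finset.sum_add_distrib]
    simp
  simp only [h1]
  rw [Finset.sum_const, Finset.card_univ, Fintype.card_fin, nsmul_eq_mul]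
  field_simp
  ring

theorem avO_tens {t : L → ℕ} (b : L → D → ℝ) (Q : Matrix (L → D) (L → D) ℝ) (f : Cp t → D) :
    (avO t Q *ᵥ tens b) f = (∏ s, (1 / (t s : ℝ))) *
      ∑ c : (∀ s, Fin (t s)), (Q *ᵥ tens1 b) (fun s => f (pl c s)) * rest b c f := by
  unfold avO
  rw [smul_mulVec, Pi.smul_apply, smul_eq_mul, Matrix.sum_mulVec, Finset.sum_apply]
  congr 1
  apply Finset.sum_congr rfl
  intro c _
  exact lift_tens b c Q f

/-- exact formula for the norm of the averaged operator on a product vector -/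
theorem avO_sq {t : L → ℕ} (ht : ∀ s, 1 ≤ t s) {b : L → D → ℝ} (hb : ∀ s, ∑ v, b s v ^ 2 = 1)
    (Q : Matrix (L → D) (L → D) ℝ) :
    (avO t Q *ᵥ tens b) ⬝ᵥ (avO t Q *ᵥ tens b) =
      ∑ S ∈ (Finset.univ : Finset L).powerset, ((∏ s ∈ S, (1 / (t s : ℝ))) *
        ∏ s ∈ Finset.univ \ S, (1 - 1 / (t s : ℝ))) * nS b (Q *ᵥ tens1 b) S := by
  set X := Q *ᵥ tens1 b with hX
  have h1 : (avO t Q *ᵥ tens b) ⬝ᵥ (avO t Q *ᵥ tens b) =
      (∏ s, (1 / (t s : ℝ))) * (∏ s, (1 / (t s : ℝ))) *
      ∑ c : (∀ s, Fin (t s)), ∑ c' : (∀ s, Fin (t s)),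
        ∑ u : L → D, ∑ u' : L → D, X u * X u' * ∏ s, gk b (fun s => c s = c' s) u u' s := by
    unfold dotProduct
    have h2 : ∀ f : Cp t → D, (avO t Q *ᵥ tens b) f * (avO t Q *ᵥ tens b) f =
        (∏ s, (1 / (t s : ℝ))) * (∏ s, (1 / (t s : ℝ))) *
        ∑ c : (∀ s, Fin (t s)), ∑ c' : (∀ s, Fin (t s)),
          (X (fun s => f (pl c s)) * rest b c f) * (X (fun s => f (pl c' s)) * rest b c' f) := by
      intro f
      rw [avO_tens, ← Finset.sum_mul_sum]
      ring
    simp only [h2]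
    rw [← Finset.mul_sum]
    congr 1
    rw [Finset.sum_comm]
    apply Finset.sum_congr rfl
    intro c _
    rw [Finset.sum_comm]
    apply Finset.sum_congr rfl
    intro c' _
    exact gram_pair hb c c' X
  rw [h1]
  have h3 : (∏ s, (1 / (t s : ℝ))) * (∏ s, (1 / (t s : ℝ))) *
      ∑ c : (∀ s, Fin (t s)), ∑ c' : (∀ s, Fin (t s)),
        ∑ u : L → D, ∑ u' : L → D, X u * X u' * ∏ s, gk b (fun s => c s = c' s) u u' s =
      ∑ u : L → D, ∑ u' : L → D, X u * X u' * ∏ s, ((1 / (t s : ℝ)) *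
        (if u s = u' s then 1 else 0) + (1 - 1 / (t s : ℝ)) * (b s (u s) * b s (u' s))) := by
    have h4 : ∑ c : (∀ s, Fin (t s)), ∑ c' : (∀ s, Fin (t s)),
        ∑ u : L → D, ∑ u' : L → D, X u * X u' * ∏ s, gk b (fun s => c s = c' s) u u' s =
        ∑ u : L → D, ∑ u' : L → D, X u * X u' * ∏ s, ∑ j : Fin (t s), ∑ j' : Fin (t s),
          (if j = j' then (if u s = u' s then (1 : ℝ) else 0) else b s (u s) * b s (u' s)) := by
      have h5 : ∀ c : (∀ s, Fin (t s)), ∑ c' : (∀ s, Fin (t s)),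
        ∑ u : L → D, ∑ u' : L → D, X u * X u' * ∏ s, gk b (fun s => c s = c' s) u u' s =
        ∑ u : L → D, ∑ u' : L → D, X u * X u' * ∏ s, ∑ j' : Fin (t s),
          (if c s = j' then (if u s = u' s then (1 : ℝ) else 0) else b s (u s) * b s (u' s)) := by
        intro c
        rw [Finset.sum_comm]
        apply Finset.sum_congr rfl
        intro u _
        rw [Finset.sum_comm]
        apply Finset.sum_congr rfl
        intro u' _
        rw [← Finset.mul_sum]
        congr 1
        exact sum_prod_c (fun s j' =>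
          (if c s = j' then (if u s = u' s then (1 : ℝ) else 0) else b s (u s) * b s (u' s)))
      simp only [h5]
      rw [Finset.sum_comm]
      apply Finset.sum_congr rfl
      intro u _
      rw [Finset.sum_comm]
      apply Finset.sum_congr rfl
      intro u' _
      rw [← Finset.mul_sum]
      congr 1
      exact sum_prod_c (fun s j => ∑ j' : Fin (t s),
          (if j = j' then (if u s = u' s then (1 : ℝ) else 0) else b s (u s) * b s (u' s)))
    rw [h4, Finset.mul_sum]
    apply Finset.sum_congr rfl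
    intro u _
    rw [Finset.mul_sum]
    apply Finset.sum_congr rfl
    intro u' _
    rw [← Finset.prod_mul_distrib]
    have h6 : ∀ a p q : ℝ, a * (p * q) = p * (a * q) := by intros; ring
    rw [h6, ← Finset.prod_mul_distrib]
    congr 1
    apply Finset.prod_congr rfl
    intro s _
    exact pair_avg (ht s) _ _
  rw [h3]
  have h4 : ∀ u u' : L → D, ∏ s, ((1 / (t s : ℝ)) *
        (if u s = u' s then 1 else 0) + (1 - 1 / (t s : ℝ)) * (b s (u s) * b s (u' s))) =
      ∑ S ∈ (Finset.univ : Finset L).powerset, ((∏ s ∈ S, (1 / (t s : ℝ))) *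
        ∏ s ∈ Finset.univ \ S, (1 - 1 / (t s : ℝ))) *
        ∏ s, (if s ∈ S then (if u s = u' s then 1 else 0) else b s (u s) * b s (u' s)) := by
    intro u u'
    rw [Finset.prod_add]
    apply Finset.sum_congr rfl
    intro S _
    rw [Finset.prod_mul_distrib, Finset.prod_mul_distrib]
    have h5 : ∏ s, (if s ∈ S then (if u s = u' s then (1 : ℝ) else 0) else b s (u s) * b s (u' s)) =
        (∏ s ∈ S, (if u s = u' s then (1 : ℝ) else 0)) *
        ∏ s ∈ Finset.univ \ S, (b s (u s) * b s (u' s)) := by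
      rw [← Finset.prod_sdiff (Finset.subset_univ S), mul_comm]
      congr 1
      · apply Finset.prod_congr rfl
        intro s hs
        rw [if_pos hs]
      · apply Finset.prod_congr rfl
        intro s hs
        rw [if_neg (Finset.mem_sdiff.mp hs).2]
    rw [h5]
    ring
  simp only [h4, Finset.mul_sum]
  have h5 : ∀ u : L → D, ∑ u' : L → D, ∑ S ∈ (Finset.univ : Finset L).powerset,
      X u * X u' * (((∏ s ∈ S, (1 / (t s : ℝ))) *
        ∏ s ∈ Finset.univ \ S, (1 - 1 / (t s : ℝ))) *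
        ∏ s, (if s ∈ S then (if u s = u' s then 1 else 0) else b s (u s) * b s (u' s))) =
      ∑ S ∈ (Finset.univ : Finset L).powerset, ∑ u' : L → D, X u * X u' * (((∏ s ∈ S, (1 / (t s : ℝ))) *
        ∏ s ∈ Finset.univ \ S, (1 - 1 / (t s : ℝ))) *
        ∏ s, (if s ∈ S then (if u s = u' s then 1 else 0) else b s (u s) * b s (u' s))) :=
    fun u => Finset.sum_comm
  simp only [h5]
  rw [Finset.sum_comm]
  apply Finset.sum_congr rfl
  intro S _
  rw [nS_eq hb, Finset.mul_sum]
  apply Finset.sum_congr rfl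
  intro u _
  rw [Finset.mul_sum]
  apply Finset.sum_congr rfl
  intro u' _
  ring

/-- upper bound for the noise -/
theorem avO_sq_le {t : L → ℕ} (ht : ∀ s, 1 ≤ t s) {b : L → D → ℝ} (hb : ∀ s, ∑ v, b s v ^ 2 = 1)
    (Q : Matrix (L → D) (L → D) ℝ) :
    (avO t Q *ᵥ tens b) ⬝ᵥ (avO t Q *ᵥ tens b) ≤
      ∑ S ∈ (Finset.univ : Finset L).powerset, (∏ s ∈ S, (1 / (t s : ℝ))) *
        nS b (Q *ᵥ tens1 b) S := by
  rw [avO_sq ht hb]
  apply Finset.sum_le_sum
  intro S _
  apply mul_le_mul_of_nonneg_right _ (nS_nonneg _ _ _)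
  have h1 : ∏ s ∈ Finset.univ \ S, (1 - 1 / (t s : ℝ)) ≤ 1 := by
    apply Finset.prod_le_one
    · intro s _
      have : (1 : ℝ) ≤ t s := by exact_mod_cast ht s
      rw [sub_nonneg, div_le_one (by linarith)]
      exact this
    · intro s _
      have : (0 : ℝ) ≤ 1 / (t s : ℝ) := by positivity
      linarith
  have h2 : 0 ≤ ∏ s ∈ S, (1 / (t s : ℝ)) := Finset.prod_nonneg fun s _ => by positivity
  exact mul_le_of_le_one_right h2 h1

theorem tens_sq {t : L → ℕ} {b : L → D → ℝ} (hb : ∀ s, ∑ v, b s v ^ 2 = 1) :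
    tens (t := t) b ⬝ᵥ tens b = 1 := by
  unfold dotProduct tens
  have h1 : ∀ f : Cp t → D, (∏ q : Cp t, b q.1 (f q)) * ∏ q : Cp t, b q.1 (f q) =
      ∏ q : Cp t, b q.1 (f q) ^ 2 := by
    intro f
    rw [← Finset.prod_mul_distrib]
    apply Finset.prod_congr rfl
    intro q _
    ring
  simp only [h1]
  rw [sum_prod_cp (fun q v => b q.1 v ^ 2)]
  simp [hb]

/-- the signal -/
theorem avO_form {t : L → ℕ} (ht : ∀ s, 1 ≤ t s) {b : L → D → ℝ} (hb : ∀ s, ∑ v, b s v ^ 2 = 1)
    (Q : Matrix (L → D) (L → D) ℝ) :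
    tens b ⬝ᵥ (avO t Q *ᵥ tens b) = tens1 b ⬝ᵥ (Q *ᵥ tens1 b) := by
  unfold dotProduct
  simp only [avO_tens]
  have h1 : ∀ f : Cp t → D, tens b f * ((∏ s, (1 / (t s : ℝ))) *
      ∑ c : (∀ s, Fin (t s)), (Q *ᵥ tens1 b) (fun s => f (pl c s)) * rest b c f) =
      (∏ s, (1 / (t s : ℝ))) * ∑ c : (∀ s, Fin (t s)),
        tens b f * ((Q *ᵥ tens1 b) (fun s => f (pl c s)) * rest b c f) := by
    intro f
    rw [Finset.mul_sum, Finset.mul_sum, Finset.mul_sum]
    apply Finset.sum_congr rfl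
    intro c _
    ring
  simp only [h1]
  rw [← Finset.mul_sum, Finset.sum_comm]
  have h2 : ∀ c : (∀ s, Fin (t s)), ∑ f : Cp t → D,
      tens b f * ((Q *ᵥ tens1 b) (fun s => f (pl c s)) * rest b c f) =
      ∑ u : L → D, tens1 b u * (Q *ᵥ tens1 b) u := by
    intro c
    have h3 : ∀ f : Cp t → D, tens b f * ((Q *ᵥ tens1 b) (fun s => f (pl c s)) * rest b c f) =
        ∑ u : L → D, (Q *ᵥ tens1 b) u * ∏ q : Cp t,
          (if q.2 = c q.1 then (if f q = u q.1 then b q.1 (f q) else 0) else b q.1 (f q) ^ 2) := by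
      intro f
      rw [eval_sum (Q *ᵥ tens1 b) (fun s => f (pl c s)), Finset.sum_mul, Finset.mul_sum]
      apply Finset.sum_congr rfl
      intro u _
      rw [leg_ind c f u]
      unfold tens rest
      have h4 : ∀ p x q r : ℝ, p * (x * q * r) = x * (p * (q * r)) := by intros; ring
      rw [h4, ← Finset.prod_mul_distrib, ← Finset.prod_mul_distrib]
      congr 1
      apply Finset.prod_congr rfl
      intro q _
      split_ifs <;> ring
    simp only [h3]
    rw [Finset.sum_comm]
    apply Finset.sum_congr rfl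
    intro u _
    rw [← Finset.mul_sum, sum_prod_cp (fun q v =>
      (if q.2 = c q.1 then (if v = u q.1 then b q.1 v else 0) else b q.1 v ^ 2)), mul_comm]
    congr 1
    have h5 : tens1 b u = ∏ q : Cp t, (if q.2 = c q.1 then b q.1 (u q.1) else 1) :=
      prod_leg c (fun q : Cp t => b q.1 (u q.1))
    rw [h5]
    apply Finset.prod_congr rfl
    intro q _
    by_cases h : q.2 = c q.1
    · simp [h]
    · simp [h, hb]
  simp only [h2]
  rw [Finset.sum_const, Finset.card_univ, nsmul_eq_mul, Fintype.card_pi, ← mul_assoc]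
  have h3 : (∏ s, (1 / (t s : ℝ))) * ((∏ s, Fintype.card (Fin (t s)) : ℕ) : ℝ) = 1 := by
    push_cast
    rw [← Finset.prod_mul_distrib]
    apply Finset.prod_eq_one
    intro s _
    rw [Fintype.card_fin]
    have : (t s : ℝ) ≠ 0 := by
      have := ht s
      have : t s ≠ 0 := by omega
      exact_mod_cast this
    field_simp
  rw [h3, one_mul]

end Pool.Agent.LRD
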