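import Pool.Agent.Lib_helper36.LRD.Cor
import Pool.Agent.Lib_helper36.LRD.Legs2

/-!
# The decoding lemma for a multi-leg operator applied to averaged copies
-/

set_option autoImplicit false
set_option linter.unusedSectionVars false

open Finset Matrix

namespace Pool.Agent.LRD

open Pool.Agent.LR2

/-- the noise of a multi-leg operator -/
noncomputable def noise {L D : Type} [Fintype L] [DecidableEq L] [Fintype D] [DecidableEq D]
    (t : L → ℕ) (b : L → D → ℝ) (Q : Matrix (L → D) (L → D) ℝ) : ℝ :=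
  ∑ S ∈ (Finset.univ : Finset L).powerset, (∏ s ∈ S, (1 / (t s : ℝ))) * nS b (Q *ᵥ tens1 b) S

theorem noise_nonneg {L D : Type} [Fintype L] [DecidableEq L] [Fintype D] [DecidableEq D]
    (t : L → ℕ) (b : L → D → ℝ) (Q : Matrix (L → D) (L → D) ℝ) : 0 ≤ noise t b Q := by
  unfold noise
  apply Finset.sum_nonneg
  intro S _
  exact mul_nonneg (Finset.prod_nonneg fun s _ => by positivity) (nS_nonneg _ _ _)

/-- **decoding lemma with copies**: `b x s` is the vector on leg `s` (unit where `χ x ≠ 0`),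
`t s` the number of copies of leg `s`, `Q y` an arbitrary operator on the legs. -/
theorem dec_legs {X Y L D : Type} [Fintype X] [Fintype Y] [Inhabited Y] [Fintype L] [DecidableEq L]
    [Fintype D] [DecidableEq D] [Nonempty D]
    {μ : X → ℝ} {ν : Y → ℝ} (hμ : IsPr μ) (hν : IsPr ν)
    {M : X → Y → ℝ} (hM : ∀ x y, M x y = 1 ∨ M x y = -1)
    {U A B : ℝ} (hU1 : |U| ≤ 1) (hA : 0 ≤ A) (hB : 0 ≤ B) (hU : UPR μ ν M U A B)
    {t : L → ℕ} (ht : ∀ s, 1 ≤ t s) (b : X → L → D → ℝ) (χ : X → ℝ) (hχ : ∀ x, |χ x| ≤ 1)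
    (hb : ∀ x, χ x ≠ 0 → ∀ s, ∑ v, b x s v ^ 2 = 1)
    (Q : Y → Matrix (L → D) (L → D) ℝ) {m : ℕ} (hm : 1 ≤ m) :
    (∑ x, ∑ y, μ x * ν y * ((M x y - U) *
        (χ x ^ 2 * (tens1 (b x) ⬝ᵥ (Q y *ᵥ tens1 (b x)))))) ^ 2 ≤
      8 * ((Real.sqrt (12 * ((∑ s, (t s : ℝ)) * Real.log (Fintype.card D) + 2) / m) +
        (2 * (A + B * (m * Real.log 2 + 2)) + (U - em μ ν M))) *
      (Real.sqrt (∑ x, ∑ y, μ x * ν y * (χ x ^ 2 * noise t (b x) (Q y))) *
        Real.sqrt (∑ x, ∑ y, μ x * ν y * (χ x ^ 2 * noise t (b x) (Q y)ᵀ)))) := by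
  classical
  have hform : ∀ x, (χ x • tens (t := t) (b x)) ⬝ᵥ (χ x • tens (t := t) (b x)) ≤ 1 := by
    intro x
    rw [smul_dotProduct, dotProduct_smul, smul_eq_mul, smul_eq_mul]
    by_cases h : χ x = 0
    · simp [h]
    · rw [tens_sq (hb x h), mul_one, ← sq, ← sq_abs]
      exact pow_le_one₀ (abs_nonneg _) (hχ x)
  have h := dec_explicit hμ hν hM hU1 hA hB hU (Ψ := fun x => χ x • tens (t := t) (b x)) hform
    (fun y => avO t (Q y)) hm
  have h1 : tg μ ν M U (fun x => χ x • tens (t := t) (b x)) (fun y => avO t (Q y)) =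
      ∑ x, ∑ y, μ x * ν y * ((M x y - U) *
        (χ x ^ 2 * (tens1 (b x) ⬝ᵥ (Q y *ᵥ tens1 (b x))))) := by
    unfold tg
    apply Finset.sum_congr rfl
    intro x _
    apply Finset.sum_congr rfl
    intro y _
    congr 2
    rw [mulVec_smul, smul_dotProduct, dotProduct_smul, smul_eq_mul, smul_eq_mul]
    by_cases h : χ x = 0
    · simp [h]
    · rw [avO_form ht (hb x h)]
      ring
  rw [h1] at h
  refine h.trans ?_
  apply mul_le_mul_of_nonneg_left _ (by norm_num)
  have hcard : Real.log (Fintype.card (Cp t → D)) = (∑ s, (t s : ℝ)) * Real.log (Fintype.card D) := by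
    rw [Fintype.card_fun, Fintype.card_sigma]
    push_cast
    rw [← Nat.cast_pow, Nat.cast_pow, Real.log_pow]
    simp
  rw [hcard]
  have hnz : ∀ P : Y → Matrix (L → D) (L → D) ℝ,
      Real.sqrt (∑ x, ∑ y, μ x * ν y * (((avO t (P y)) *ᵥ (χ x • tens (t := t) (b x))) ⬝ᵥ
        ((avO t (P y)) *ᵥ (χ x • tens (t := t) (b x))))) ≤
      Real.sqrt (∑ x, ∑ y, μ x * ν y * (χ x ^ 2 * noise t (b x) (P y))) := by
    intro P
    apply Real.sqrt_le_sqrt
    apply Finset.sum_le_sum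
    intro x _
    apply Finset.sum_le_sum
    intro y _
    apply mul_le_mul_of_nonneg_left _ (mul_nonneg (hμ.nonneg x) (hν.nonneg y))
    rw [mulVec_smul, smul_dotProduct, dotProduct_smul, smul_eq_mul, smul_eq_mul]
    by_cases h : χ x = 0
    · simp [h]
    · rw [← mul_assoc, ← sq]
      exact mul_le_mul_of_nonneg_left (avO_sq_le ht (hb x h) (P y)) (sq_nonneg _)
  have hΔ : 0 ≤ Real.sqrt (12 * ((∑ s, (t s : ℝ)) * Real.log (Fintype.card D) + 2) / m) +
        (2 * (A + B * (m * Real.log 2 + 2)) + (U - em μ ν M)) := by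
    have h2 := (abs_nonneg _).trans (dec_contr_abs hμ hν hM hA hB hU hform
      (O := fun _ => (0 : Matrix (Cp t → D) (Cp t → D) ℝ))
      (fun y v => by simpa using dot_self_nonneg v)
      (p := ⌈Real.log (Fintype.card (Cp t → D))⌉₊ + 1) (by omega) hm)
    have h3 := decEps_le μ ν M U A B (N := Fintype.card (Cp t → D)) Fintype.card_pos hm
    rw [hcard] at h3
    rw [hcard] at h2
    exact h2.trans h3
  apply mul_le_mul_of_nonneg_left _ hΔ
  apply mul_le_mul (hnz Q) _ (Real.sqrt_nonneg _) (Real.sqrt_nonneg _)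
  have h2 := hnz (fun y => (Q y)ᵀ)
  refine le_trans (le_of_eq ?_) h2
  congr 1
  apply Finset.sum_congr rfl
  intro x _
  apply Finset.sum_congr rfl
  intro y _
  rw [avO_tr]

end Pool.Agent.LRD
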