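import Pool.Agent.Lib_helper36.LRD.Spec

/-!
# Derivatives of `tr (S + t O)^k`
-/

set_option autoImplicit false

open Finset Matrix

namespace Pool.Agent.LRD

variable {n : Type} [Fintype n] [DecidableEq n]

attribute [local instance] Matrix.linftyOpNormedAddCommGroup Matrix.linftyOpNormedSpace
  Matrix.linftyOpNormedRing Matrix.linftyOpNormedAlgebra

/-- noncommutative derivative of the power -/
def dpow (X O : Matrix n n ℝ) (k : ℕ) : Matrix n n ℝ :=
  ∑ j ∈ range k, X ^ j * O * X ^ (k - 1 - j)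

theorem dpow_succ (X O : Matrix n n ℝ) (k : ℕ) : dpow X O (k + 1) = dpow X O k * X + X ^ k * O := by
  unfold dpow
  rw [Finset.sum_range_succ, Finset.sum_mul]
  have h1 : k + 1 - 1 - k = 0 := by omega
  rw [h1, pow_zero, Matrix.mul_one]
  congr 1
  apply Finset.sum_congr rfl
  intro j hj
  rw [Finset.mem_range] at hj
  have h2 : k + 1 - 1 - j = (k - 1 - j) + 1 := by omega
  rw [h2, pow_succ, ← Matrix.mul_assoc]

theorem hasDeriv_pow (S O : Matrix n n ℝ) (k : ℕ) (t : ℝ) :
    HasDerivAt (fun t : ℝ => (S + t • O) ^ k) (dpow (S + t • O) O k) t := by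
  have h0 : HasDerivAt (fun t : ℝ => S + t • O) O t := by
    have h1 : HasDerivAt (fun t : ℝ => t • O) ((1 : ℝ) • O) t := (hasDerivAt_id t).smul_const O
    rw [one_smul] at h1
    exact h1.const_add S
  induction k with
  | zero =>
    simp only [pow_zero]
    have : dpow (S + t • O) O 0 = 0 := by simp [dpow]
    rw [this]
    exact hasDerivAt_const t (1 : Matrix n n ℝ)
  | succ k ih =>
    simp only [pow_succ]
    rw [dpow_succ]
    exact ih.mul h0

/-- trace as a continuous linear map -/
noncomputable def trL (n : Type) [Fintype n] [DecidableEq n] : Matrix n n ℝ →L[ℝ] ℝ :=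
  (Matrix.traceLinearMap n ℝ ℝ).toContinuousLinearMap

theorem hasDeriv_tr (S O P : Matrix n n ℝ) (k : ℕ) (t : ℝ) :
    HasDerivAt (fun t : ℝ => trace ((S + t • O) ^ k * P)) (trace (dpow (S + t • O) O k * P)) t := by
  have h1 : HasDerivAt (fun t : ℝ => (S + t • O) ^ k * P) (dpow (S + t • O) O k * P) t :=
    (hasDeriv_pow S O k t).mul_const P
  exact (trL n).hasFDerivAt.comp_hasDerivAt t h1

theorem tr_dpow (X O : Matrix n n ℝ) (k : ℕ) :
    trace (dpow X O k) = k * trace (X ^ (k - 1) * O) := by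
  unfold dpow
  rw [trace_sum]
  have h1 : ∀ j ∈ range k, trace (X ^ j * O * X ^ (k - 1 - j)) = trace (X ^ (k - 1) * O) := by
    intro j hj
    rw [Finset.mem_range] at hj
    rw [trace_mul_comm, ← Matrix.mul_assoc, ← pow_add]
    congr 3
    omega
  rw [Finset.sum_congr rfl h1]
  simp

theorem isHerm_add {S O : Matrix n n ℝ} (hS : S.IsHermitian) (hO : O.IsHermitian) (t : ℝ) :
    (S + t • O).IsHermitian := by
  apply IsHermitian.add hS
  unfold IsHermitian at *
  rw [conjTranspose_smul, hO]
  simp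

/-- first derivative of `tr X^(2p)` -/
theorem hasDeriv_f (S O : Matrix n n ℝ) (k : ℕ) (t : ℝ) :
    HasDerivAt (fun t : ℝ => trace ((S + t • O) ^ k)) (k * trace ((S + t • O) ^ (k - 1) * O)) t := by
  have h := hasDeriv_tr S O 1 k t
  simp only [Matrix.mul_one] at h
  rw [tr_dpow] at h
  exact h

/-- bound of the second derivative -/
theorem second_bound {S O : Matrix n n ℝ} (hS : S.IsHermitian) (hO : O.IsHermitian)
    (hO1 : Contr O) {p : ℕ} (hp : 1 ≤ p) (t : ℝ) :
    trace (dpow (S + t • O) O (2 * p - 1) * O) ≤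
      (2 * p - 1) * (2 * trace ((S + t • O) ^ (2 * (p - 1)))) := by
  have hX := isHerm_add hS hO t
  have hO' : Oᵀ = O := by
    have := hO
    unfold IsHermitian at this
    rwa [conjTranspose_eq_transpose_of_trivial] at this
  unfold dpow
  rw [Finset.sum_mul, trace_sum]
  calc _ ≤ ∑ j ∈ range (2 * p - 1), 2 * trace ((S + t • O) ^ (2 * (p - 1))) := by
        apply Finset.sum_le_sum
        intro j hj
        rw [Finset.mem_range] at hj
        exact tr_bound hX hO' hO1 (by omega)
    _ = _ := by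
        rw [Finset.sum_const, card_range, nsmul_eq_mul]
        congr 1
        rw [Nat.cast_sub (by omega)]
        push_cast
        ring

/-- power mean -/
theorem power_mean (lam : n → ℝ) {p : ℕ} (hp : 1 ≤ p) :
    ∑ a, lam a ^ (2 * (p - 1)) ≤
      (Fintype.card n : ℝ) ^ ((1 : ℝ) / p) * (∑ a, lam a ^ (2 * p)) ^ (1 - (1 : ℝ) / p) := by
  rcases Nat.lt_or_ge 1 p with h | h
  · have hp1 : (1 : ℝ) < p := by exact_mod_cast h
    have hp0 : (0 : ℝ) < p := by linarith
    have hconj : Real.HolderConjugate (p : ℝ) ((p : ℝ) / (p - 1)) := by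
      rw [Real.holderConjugate_iff]
      refine ⟨hp1, ?_⟩
      field_simp
      ring
    have h1 := Real.inner_le_Lp_mul_Lq_of_nonneg Finset.univ hconj
      (f := fun _ : n => (1 : ℝ)) (g := fun a => lam a ^ (2 * (p - 1)))
      (fun _ _ => zero_le_one) (fun a _ => by
        show 0 ≤ lam a ^ (2 * (p - 1)); rw [pow_mul]; positivity)
    simp only [one_mul, Real.one_rpow, Finset.sum_const, Finset.card_univ, nsmul_eq_mul,
      mul_one] at h1
    refine h1.trans (le_of_eq ?_)
    congr 1
    have h2 : ∀ a, (lam a ^ (2 * (p - 1))) ^ ((p : ℝ) / (p - 1)) = lam a ^ (2 * p) := by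
      intro a
      have h3 : lam a ^ (2 * (p - 1)) = (lam a ^ 2) ^ ((p : ℝ) - 1) := by
        rw [pow_mul, ← Real.rpow_natCast (lam a ^ 2) (p - 1), Nat.cast_sub hp]
        simp
      rw [h3, ← Real.rpow_mul (sq_nonneg _)]
      have h4 : ((p : ℝ) - 1) * ((p : ℝ) / (p - 1)) = p := by
        have : (p : ℝ) - 1 ≠ 0 := by linarith
        field_simp
      rw [h4, Real.rpow_natCast, ← pow_mul]
    simp only [h2]
    congr 1
    have : (p : ℝ) - 1 ≠ 0 := by linarith
    field_simp
  · have h1 : p = 1 := by omega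
    subst h1
    simp

end Pool.Agent.LRD
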