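import Pool.Agent.Lib_helper36.LRD.Legs2
import Pool.Agent.Lib_helper94.LRC.Tri

/-!
# The contractions for two and three legs
-/

set_option autoImplicit false
set_option linter.unusedSectionVars false
set_option linter.unusedSimpArgs false

open Finset Matrix

namespace Pool.Agent.LRD

open Pool.Agent.LRC (hs TV TH OpB)

variable {D : Type} [Fintype D] [DecidableEq D]

/-- sums over three legs -/
theorem sum_fin3 (F : (Fin 3 → D) → ℝ) : ∑ w, F w = ∑ a, ∑ p, ∑ q, F ![a, p, q] := by
  let e : (Fin 3 → D) ≃ D × D × D :=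
    { toFun := fun w => (w 0, w 1, w 2)
      invFun := fun x => ![x.1, x.2.1, x.2.2]
      left_inv := by
        intro w
        funext i
        fin_cases i <;> rfl
      right_inv := by
        rintro ⟨a, p, q⟩
        rfl }
  rw [← Equiv.sum_comp e.symm, Fintype.sum_prod_type]
  apply Finset.sum_congr rfl
  intro a _
  rw [Fintype.sum_prod_type]
  rfl

/-- sums over two legs -/
theorem sum_fin2 (F : (Fin 2 → D) → ℝ) : ∑ w, F w = ∑ a, ∑ p, F ![a, p] := by
  let e : (Fin 2 → D) ≃ D × D :=
    { toFun := fun w => (w 0, w 1)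
      invFun := fun x => ![x.1, x.2]
      left_inv := by
        intro w
        funext i
        fin_cases i <;> rfl
      right_inv := by
        rintro ⟨a, p⟩
        rfl }
  rw [← Equiv.sum_comp e.symm, Fintype.sum_prod_type]
  rfl

/-- the delta function -/
def dl (a b : D) : ℝ := if a = b then 1 else 0

theorem nS_dl {L : Type} [Fintype L] [DecidableEq L] (b : L → D → ℝ) (X : (L → D) → ℝ)
    (S : Finset L) : nS b X S = ∑ w : L → D, (∏ s, (if s ∈ S then 1 else b s (w s) ^ 2)) *
    (∑ u : L → D, X u * ∏ s, (if s ∈ S then dl (u s) (w s) else b s (u s))) ^ 2 := rfl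

theorem collapse (f : D → ℝ) (a : D) : ∑ a', f a' * dl a' a = f a := by
  simp [dl]

section three
variable {b : D → ℝ} (hb : ∑ v, b v ^ 2 = 1) (F : D → D → D → ℝ)

/-- the tensor with entries `F` -/
def ten3 (F : D → D → D → ℝ) (u : Fin 3 → D) : ℝ := F (u 0) (u 1) (u 2)

include hb

theorem unit1 (c : ℝ) : ∑ v, b v ^ 2 * c = c := by
  rw [← Finset.sum_mul, hb, one_mul]

theorem unit2 (f : D → ℝ) : ∑ a, ∑ p, b p ^ 2 * f a = ∑ a, f a := by
  simp only [unit1 hb]

theorem n3_0 : nS (fun _ => b) (ten3 F) ∅ = (∑ a, ∑ p, ∑ q, F a p q * (b a * b p * b q)) ^ 2 := by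
  simp only [nS_dl, sum_fin3, Fin.prod_univ_three, ten3, Finset.notMem_empty, if_false]
  simp only [Matrix.cons_val_zero, Matrix.cons_val_one, Matrix.cons_val]
  simp only [← Finset.sum_mul, ← Finset.mul_sum, hb, one_mul]

theorem n3_a : nS (fun _ => b) (ten3 F) {0} = ∑ a, (∑ p, ∑ q, F a p q * (b p * b q)) ^ 2 := by
  simp only [nS_dl, sum_fin3, Fin.prod_univ_three, ten3, Finset.mem_singleton]
  simp only [Matrix.cons_val_zero, Matrix.cons_val_one, Matrix.cons_val, if_true,
    show (1 : Fin 3) ≠ 0 by decide, show (2 : Fin 3) ≠ 0 by decide, if_false, one_mul]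
  apply Finset.sum_congr rfl
  intro a _
  have h : ∀ a : D, ∑ a', ∑ p', ∑ q', F a' p' q' * (dl a' a * b p' * b q') =
      ∑ p, ∑ q, F a p q * (b p * b q) := by
    intro a
    rw [← collapse (fun a => ∑ p, ∑ q, F a p q * (b p * b q)) a]
    apply Finset.sum_congr rfl
    intro a' _
    rw [Finset.sum_mul]
    apply Finset.sum_congr rfl
    intro p' _
    rw [Finset.sum_mul]
    apply Finset.sum_congr rfl
    intro q' _
    ring
  simp only [h]
  simp only [← Finset.sum_mul, ← Finset.mul_sum, hb, one_mul]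

theorem n3_p : nS (fun _ => b) (ten3 F) {1} = ∑ p, (∑ a, ∑ q, F a p q * (b a * b q)) ^ 2 := by
  simp only [nS_dl, sum_fin3, Fin.prod_univ_three, ten3, Finset.mem_singleton]
  simp only [Matrix.cons_val_zero, Matrix.cons_val_one, Matrix.cons_val, if_true,
    show (0 : Fin 3) ≠ 1 by decide, show (2 : Fin 3) ≠ 1 by decide, if_false, mul_one]
  have h : ∀ p : D, ∑ a', ∑ p', ∑ q', F a' p' q' * (b a' * dl p' p * b q') =
      ∑ a, ∑ q, F a p q * (b a * b q) := by
    intro p
    apply Finset.sum_congr rfl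
    intro a' _
    rw [← collapse (fun p => ∑ q, F a' p q * (b a' * b q)) p]
    apply Finset.sum_congr rfl
    intro p' _
    rw [Finset.sum_mul]
    apply Finset.sum_congr rfl
    intro q' _
    ring
  simp only [h]
  rw [Finset.sum_comm]
  apply Finset.sum_congr rfl
  intro p _
  simp only [← Finset.sum_mul, ← Finset.mul_sum, hb, one_mul, mul_one]

theorem n3_q : nS (fun _ => b) (ten3 F) {2} = ∑ q, (∑ a, ∑ p, F a p q * (b a * b p)) ^ 2 := by
  simp only [nS_dl, sum_fin3, Fin.prod_univ_three, ten3, Finset.mem_singleton]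
  simp only [Matrix.cons_val_zero, Matrix.cons_val_one, Matrix.cons_val, if_true,
    show (0 : Fin 3) ≠ 2 by decide, show (1 : Fin 3) ≠ 2 by decide, if_false, mul_one]
  have h : ∀ q : D, ∑ a', ∑ p', ∑ q', F a' p' q' * (b a' * b p' * dl q' q) =
      ∑ a, ∑ p, F a p q * (b a * b p) := by
    intro q
    apply Finset.sum_congr rfl
    intro a' _
    apply Finset.sum_congr rfl
    intro p' _
    rw [← collapse (fun q => F a' p' q * (b a' * b p')) q]
    apply Finset.sum_congr rfl
    intro q' _
    ring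
  simp only [h]
  have h2 : ∀ a p q : D, b a ^ 2 * b p ^ 2 * (∑ a, ∑ p, F a p q * (b a * b p)) ^ 2 =
      (b a ^ 2 * b p ^ 2) * (fun q => (∑ a, ∑ p, F a p q * (b a * b p)) ^ 2) q := fun a p q => rfl
  simp only [h2, ← Finset.mul_sum]
  simp only [← Finset.sum_mul, ← Finset.mul_sum, hb, one_mul, mul_one]

theorem n3_ap : nS (fun _ => b) (ten3 F) {0, 1} = ∑ a, ∑ p, (∑ q, F a p q * b q) ^ 2 := by
  simp only [nS_dl, sum_fin3, Fin.prod_univ_three, ten3, Finset.mem_insert, Finset.mem_singleton]
  simp only [Matrix.cons_val_zero, Matrix.cons_val_one, Matrix.cons_val, if_true,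
    show (0 : Fin 3) ≠ 1 by decide, show (2 : Fin 3) ≠ 1 by decide, show (2 : Fin 3) ≠ 0 by decide,
    show (1 : Fin 3) ≠ 0 by decide, or_true, true_or, or_false, if_false, one_mul]
  have h : ∀ a p : D, ∑ a', ∑ p', ∑ q', F a' p' q' * (dl a' a * dl p' p * b q') =
      ∑ q, F a p q * b q := by
    intro a p
    rw [← collapse (fun a => ∑ q, F a p q * b q) a]
    apply Finset.sum_congr rfl
    intro a' _
    rw [← collapse (fun p => (∑ q, F a' p q * b q) * dl a' a) p]
    apply Finset.sum_congr rfl
    intro p' _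
    rw [Finset.sum_mul, Finset.sum_mul]
    apply Finset.sum_congr rfl
    intro q' _
    ring
  simp only [h]
  simp only [← Finset.sum_mul, ← Finset.mul_sum, hb, one_mul, mul_one]

theorem n3_aq : nS (fun _ => b) (ten3 F) {0, 2} = ∑ a, ∑ q, (∑ p, F a p q * b p) ^ 2 := by
  simp only [nS_dl, sum_fin3, Fin.prod_univ_three, ten3, Finset.mem_insert, Finset.mem_singleton]
  simp only [Matrix.cons_val_zero, Matrix.cons_val_one, Matrix.cons_val, if_true,
    show (0 : Fin 3) ≠ 2 by decide, show (1 : Fin 3) ≠ 0 by decide, show (2 : Fin 3) ≠ 0 by decide,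
    show (1 : Fin 3) ≠ 2 by decide, or_true, true_or, or_false, if_false, one_mul, mul_one]
  have h : ∀ a q : D, ∑ a', ∑ p', ∑ q', F a' p' q' * (dl a' a * b p' * dl q' q) =
      ∑ p, F a p q * b p := by
    intro a q
    rw [← collapse (fun a => ∑ p, F a p q * b p) a]
    apply Finset.sum_congr rfl
    intro a' _
    rw [Finset.sum_mul]
    apply Finset.sum_congr rfl
    intro p' _
    rw [← collapse (fun q => (F a' p' q * b p') * dl a' a) q]
    apply Finset.sum_congr rfl
    intro q' _
    ring
  simp only [h]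
  apply Finset.sum_congr rfl
  intro a _
  rw [Finset.sum_comm]
  simp only [← Finset.sum_mul, ← Finset.mul_sum, hb, one_mul, mul_one]

theorem n3_pq : nS (fun _ => b) (ten3 F) {1, 2} = ∑ p, ∑ q, (∑ a, F a p q * b a) ^ 2 := by
  simp only [nS_dl, sum_fin3, Fin.prod_univ_three, ten3, Finset.mem_insert, Finset.mem_singleton]
  simp only [Matrix.cons_val_zero, Matrix.cons_val_one, Matrix.cons_val, if_true,
    show (0 : Fin 3) ≠ 2 by decide, show (0 : Fin 3) ≠ 1 by decide, show (2 : Fin 3) ≠ 1 by decide,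
    show (1 : Fin 3) ≠ 2 by decide, or_true, true_or, or_false, if_false, one_mul, mul_one]
  have h : ∀ p q : D, ∑ a', ∑ p', ∑ q', F a' p' q' * (b a' * dl p' p * dl q' q) =
      ∑ a, F a p q * b a := by
    intro p q
    apply Finset.sum_congr rfl
    intro a' _
    rw [← collapse (fun p => F a' p q * b a') p]
    apply Finset.sum_congr rfl
    intro p' _
    rw [← collapse (fun q => (F a' p' q * b a') * dl p' p) q]
    apply Finset.sum_congr rfl
    intro q' _
    ring
  simp only [h]
  simp only [← Finset.sum_mul, ← Finset.mul_sum, hb, one_mul, mul_one]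

omit hb in
theorem n3_apq : nS (fun _ => b) (ten3 F) {0, 1, 2} = ∑ a, ∑ p, ∑ q, F a p q ^ 2 := by
  simp only [nS_dl, sum_fin3, Fin.prod_univ_three, ten3, Finset.mem_insert, Finset.mem_singleton]
  simp only [Matrix.cons_val_zero, Matrix.cons_val_one, Matrix.cons_val, if_true,
    or_true, true_or, one_mul, mul_one]
  have h : ∀ a p q : D, ∑ a', ∑ p', ∑ q', F a' p' q' * (dl a' a * dl p' p * dl q' q) =
      F a p q := by
    intro a p q
    rw [← collapse (fun a => F a p q) a]
    apply Finset.sum_congr rfl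
    intro a' _
    rw [← collapse (fun p => F a' p q * dl a' a) p]
    apply Finset.sum_congr rfl
    intro p' _
    rw [← collapse (fun q => (F a' p' q * dl a' a) * dl p' p) q]
    apply Finset.sum_congr rfl
    intro q' _
    ring
  simp only [h]

omit hb in
theorem pow3 (f : Finset (Fin 3) → ℝ) : ∑ S ∈ (Finset.univ : Finset (Fin 3)).powerset, f S =
    f ∅ + f {0} + f {1} + f {2} + f {0, 1} + f {0, 2} + f {1, 2} + f {0, 1, 2} := by
  have h : (Finset.univ : Finset (Fin 3)).powerset =
    {∅, {0}, {1}, {2}, {0, 1}, {0, 2}, {1, 2}, {0, 1, 2}} := by decide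
  rw [h]
  rw [Finset.sum_insert (by decide), Finset.sum_insert (by decide), Finset.sum_insert (by decide),
    Finset.sum_insert (by decide), Finset.sum_insert (by decide), Finset.sum_insert (by decide),
    Finset.sum_insert (by decide), Finset.sum_singleton]
  ring

omit hb in
theorem pow2 (f : Finset (Fin 2) → ℝ) : ∑ S ∈ (Finset.univ : Finset (Fin 2)).powerset, f S =
    f ∅ + f {0} + f {1} + f {0, 1} := by
  have h : (Finset.univ : Finset (Fin 2)).powerset = {∅, {0}, {1}, {0, 1}} := by decide
  rw [h]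
  rw [Finset.sum_insert (by decide), Finset.sum_insert (by decide), Finset.sum_insert (by decide),
    Finset.sum_singleton]
  ring

end three

section two
variable {b : D → ℝ} (hb : ∑ v, b v ^ 2 = 1) (F : D → D → ℝ)

/-- the tensor with entries `F` -/
def ten2 (F : D → D → ℝ) (u : Fin 2 → D) : ℝ := F (u 0) (u 1)

include hb

theorem n2_0 : nS (fun _ => b) (ten2 F) ∅ = (∑ a, ∑ p, F a p * (b a * b p)) ^ 2 := by
  simp only [nS_dl, sum_fin2, Fin.prod_univ_two, ten2, Finset.notMem_empty, if_false]
  simp only [Matrix.cons_val_zero, Matrix.cons_val_one]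
  simp only [← Finset.sum_mul, ← Finset.mul_sum, hb, one_mul]

theorem n2_a : nS (fun _ => b) (ten2 F) {0} = ∑ a, (∑ p, F a p * b p) ^ 2 := by
  simp only [nS_dl, sum_fin2, Fin.prod_univ_two, ten2, Finset.mem_singleton]
  simp only [Matrix.cons_val_zero, Matrix.cons_val_one, if_true,
    show (1 : Fin 2) ≠ 0 by decide, if_false, one_mul]
  have h : ∀ a : D, ∑ a', ∑ p', F a' p' * (dl a' a * b p') = ∑ p, F a p * b p := by
    intro a
    rw [← collapse (fun a => ∑ p, F a p * b p) a]
    apply Finset.sum_congr rfl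
    intro a' _
    rw [Finset.sum_mul]
    apply Finset.sum_congr rfl
    intro p' _
    ring
  simp only [h]
  simp only [← Finset.sum_mul, ← Finset.mul_sum, hb, one_mul]

theorem n2_p : nS (fun _ => b) (ten2 F) {1} = ∑ p, (∑ a, F a p * b a) ^ 2 := by
  simp only [nS_dl, sum_fin2, Fin.prod_univ_two, ten2, Finset.mem_singleton]
  simp only [Matrix.cons_val_zero, Matrix.cons_val_one, if_true,
    show (0 : Fin 2) ≠ 1 by decide, if_false, mul_one]
  have h : ∀ p : D, ∑ a', ∑ p', F a' p' * (b a' * dl p' p) = ∑ a, F a p * b a := by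
    intro p
    apply Finset.sum_congr rfl
    intro a' _
    rw [← collapse (fun p => F a' p * b a') p]
    apply Finset.sum_congr rfl
    intro p' _
    ring
  simp only [h]
  rw [Finset.sum_comm]
  simp only [← Finset.sum_mul, ← Finset.mul_sum, hb, one_mul, mul_one]

omit hb in
theorem n2_ap : nS (fun _ => b) (ten2 F) {0, 1} = ∑ a, ∑ p, F a p ^ 2 := by
  simp only [nS_dl, sum_fin2, Fin.prod_univ_two, ten2, Finset.mem_insert, Finset.mem_singleton]
  simp only [Matrix.cons_val_zero, Matrix.cons_val_one, if_true,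
    or_true, true_or, one_mul]
  have h : ∀ a p : D, ∑ a', ∑ p', F a' p' * (dl a' a * dl p' p) = F a p := by
    intro a p
    rw [← collapse (fun a => F a p) a]
    apply Finset.sum_congr rfl
    intro a' _
    rw [← collapse (fun p => F a' p * dl a' a) p]
    apply Finset.sum_congr rfl
    intro p' _
    ring
  simp only [h]

end two

end Pool.Agent.LRD
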