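import Pool.Agent.Lib_helper36.LRD.Leg3
import Pool.Agent.Lib_helper94.LRC.Tri

/-!
# The operators `A₁₃ K₁ A₁₂` and `K₁ A₁₂ K₁`
-/

set_option autoImplicit false
set_option linter.unusedSectionVars false

open Finset Matrix

namespace Pool.Agent.LRD

open Pool.Agent.LRC (hs TV TH OpB TV_comm TV_transpose dot_TV_swap TV_sum TV_smul dot_symm_mulVec)

variable {D : Type} [Fintype D] [DecidableEq D] {Y : Type} [Fintype Y]

/-- basis vectors -/
def bas (e : D) : D → ℝ := Pi.single e 1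

/-- column of a matrix -/
def colv (A : Matrix D D ℝ) (j : D) : D → ℝ := fun i => A i j

theorem mulVec_bas (A : Matrix D D ℝ) (j : D) : A *ᵥ bas j = colv A j := by
  funext i
  simp [colv, bas, Matrix.mulVec, dotProduct, Pi.single_apply]

theorem colv_mul (A B : Matrix D D ℝ) (j : D) : colv (A * B) j = A *ᵥ colv B j := by
  funext i
  simp only [colv, Matrix.mul_apply, Matrix.mulVec, dotProduct]

theorem sum_colv (A : Matrix D D ℝ) (b : D → ℝ) : ∑ j, b j • colv A j = A *ᵥ b := by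
  funext i
  simp only [colv, Matrix.mulVec, dotProduct, Finset.sum_apply, Pi.smul_apply, smul_eq_mul]
  apply Finset.sum_congr rfl
  intro j _
  ring

/-- a sum of product operators on three legs -/
def opr3 {E : Type} [Fintype E] (A B C : E → Matrix D D ℝ) :
    Matrix (Fin 3 → D) (Fin 3 → D) ℝ :=
  Matrix.of fun u v => ∑ e, A e (u 0) (v 0) * (B e (u 1) (v 1) * C e (u 2) (v 2))

/-- a sum of product operators on two legs -/
def opr2 {E : Type} [Fintype E] (A B : E → Matrix D D ℝ) :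
    Matrix (Fin 2 → D) (Fin 2 → D) ℝ :=
  Matrix.of fun u v => ∑ e, A e (u 0) (v 0) * B e (u 1) (v 1)

theorem opr3_tr {E : Type} [Fintype E] (A B C : E → Matrix D D ℝ) :
    (opr3 A B C)ᵀ = opr3 (fun e => (A e)ᵀ) (fun e => (B e)ᵀ) (fun e => (C e)ᵀ) := rfl

theorem opr2_tr {E : Type} [Fintype E] (A B : E → Matrix D D ℝ) :
    (opr2 A B)ᵀ = opr2 (fun e => (A e)ᵀ) (fun e => (B e)ᵀ) := rfl

theorem opr3_mulVec {E : Type} [Fintype E] (A B C : E → Matrix D D ℝ) (b : D → ℝ) :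
    opr3 A B C *ᵥ tens1 (fun _ => b) =
      ten3 (fun a p q => ∑ e, (A e *ᵥ b) a * ((B e *ᵥ b) p * (C e *ᵥ b) q)) := by
  funext u
  simp only [ten3, opr3, Matrix.mulVec, dotProduct, Matrix.of_apply]
  have h1 : ∀ v : Fin 3 → D, (∑ e, A e (u 0) (v 0) * (B e (u 1) (v 1) * C e (u 2) (v 2))) *
      tens1 (fun _ => b) v = ∑ e, (A e (u 0) (v 0) * b (v 0)) * ((B e (u 1) (v 1) * b (v 1)) *
        (C e (u 2) (v 2) * b (v 2))) := by
    intro v
    rw [Finset.sum_mul]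
    apply Finset.sum_congr rfl
    intro e _
    simp only [tens1, Fin.prod_univ_three]
    ring
  simp only [h1]
  rw [Finset.sum_comm]
  apply Finset.sum_congr rfl
  intro e _
  rw [sum_fin3]
  simp only [Matrix.cons_val_zero, Matrix.cons_val_one, Matrix.cons_val]
  simp only [← Finset.mul_sum, ← Finset.sum_mul]

theorem opr2_mulVec {E : Type} [Fintype E] (A B : E → Matrix D D ℝ) (b : D → ℝ) :
    opr2 A B *ᵥ tens1 (fun _ => b) =
      ten2 (fun a p => ∑ e, (A e *ᵥ b) a * (B e *ᵥ b) p) := by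
  funext u
  simp only [ten2, opr2, Matrix.mulVec, dotProduct, Matrix.of_apply]
  have h1 : ∀ v : Fin 2 → D, (∑ e, A e (u 0) (v 0) * B e (u 1) (v 1)) *
      tens1 (fun _ => b) v = ∑ e, (A e (u 0) (v 0) * b (v 0)) * (B e (u 1) (v 1) * b (v 1)) := by
    intro v
    rw [Finset.sum_mul]
    apply Finset.sum_congr rfl
    intro e _
    simp only [tens1, Fin.prod_univ_two]
    ring
  simp only [h1]
  rw [Finset.sum_comm]
  apply Finset.sum_congr rfl
  intro e _
  rw [sum_fin2]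
  simp only [Matrix.cons_val_zero, Matrix.cons_val_one]
  simp only [← Finset.mul_sum, ← Finset.sum_mul]

variable (ν : Y → ℝ) (z : Y → D → ℝ)

/-- `A₁₃ K₁ A₁₂` -/
def Q3 (K : Matrix D D ℝ) : Matrix (Fin 3 → D) (Fin 3 → D) ℝ :=
  opr3 (E := D × D) (fun e => TV ν z (bas e.2) * K * TV ν z (bas e.1)) (fun e => TV ν z (bas e.1))
    (fun e => TV ν z (bas e.2))

/-- `K₁ A₁₂ K₁` -/
def Q2 (K : Matrix D D ℝ) : Matrix (Fin 2 → D) (Fin 2 → D) ℝ :=
  opr2 (E := D) (fun e => K * TV ν z (bas e) * K) (fun e => TV ν z (bas e))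

variable {ν z}

theorem TV_bas_mulVec (e : D) (b : D → ℝ) : TV ν z (bas e) *ᵥ b = colv (TV ν z b) e := by
  rw [TV_comm, mulVec_bas]

theorem TV_sym (b : D → ℝ) (i j : D) : TV ν z b i j = TV ν z b j i := by
  conv_lhs => rw [← TV_transpose (ν := ν) (z := z) b]
  rfl

/-- the entries of `Q3 b⊗b⊗b` -/
def F3 (ν : Y → ℝ) (z : Y → D → ℝ) (K : Matrix D D ℝ) (b : D → ℝ) (a p q : D) : ℝ :=
  (TV ν z (colv (K * TV ν z b * TV ν z b) p) * TV ν z b) a q

theorem sum_TV (c : D → D → ℝ) (s : D → ℝ) (a e : D) :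
    ∑ p, s p * TV ν z (c p) a e = TV ν z (∑ p, s p • c p) a e := by
  rw [TV_sum, Matrix.sum_apply]
  apply Finset.sum_congr rfl
  intro p _
  rw [TV_smul]
  rfl

theorem F3_aux (K : Matrix D D ℝ) (b : D → ℝ) (a p q : D) :
    ∑ e : D × D, ((TV ν z (bas e.2) * K * TV ν z (bas e.1)) *ᵥ b) a *
      ((TV ν z (bas e.1) *ᵥ b) p * (TV ν z (bas e.2) *ᵥ b) q) = F3 ν z K b a p q := by
  rw [Fintype.sum_prod_type, Finset.sum_comm]
  unfold F3
  rw [Matrix.mul_apply]
  apply Finset.sum_congr rfl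
  intro e' _
  have h1 : ∀ e : D, ((TV ν z (bas e') * K * TV ν z (bas e)) *ᵥ b) a *
      ((TV ν z (bas e) *ᵥ b) p * (TV ν z (bas e') *ᵥ b) q) =
      (TV ν z b p e * TV ν z (K *ᵥ colv (TV ν z b) e) a e') * TV ν z b e' q := by
    intro e
    rw [← Matrix.mulVec_mulVec, ← Matrix.mulVec_mulVec, TV_bas_mulVec e b, TV_bas_mulVec e' b,
      TV_bas_mulVec e']
    simp only [colv]
    rw [TV_sym b q e']
    ring
  simp only [h1]
  rw [← Finset.sum_mul, sum_TV]
  congr 3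
  have h2 : colv (K * TV ν z b * TV ν z b) p = K *ᵥ ∑ e, TV ν z b p e • colv (TV ν z b) e := by
    rw [Matrix.mul_assoc, colv_mul]
    congr 1
    rw [colv_mul, ← sum_colv]
    apply Finset.sum_congr rfl
    intro e _
    simp only [colv]
    rw [TV_sym b e p]
  rw [h2, Matrix.mulVec_sum]
  apply Finset.sum_congr rfl
  intro e _
  rw [Matrix.mulVec_smul]

theorem Q3_mulVec (K : Matrix D D ℝ) (b : D → ℝ) :
    Q3 ν z K *ᵥ tens1 (fun _ => b) = ten3 (F3 ν z K b) := by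
  unfold Q3
  rw [opr3_mulVec]
  congr 1
  funext a p q
  exact F3_aux K b a p q

theorem Q3_tr_mulVec {K : Matrix D D ℝ} (hK : Kᵀ = K) (b : D → ℝ) :
    (Q3 ν z K)ᵀ *ᵥ tens1 (fun _ => b) = ten3 (fun a p q => F3 ν z K b a q p) := by
  unfold Q3
  rw [opr3_tr, opr3_mulVec]
  congr 1
  funext a p q
  rw [← F3_aux K b a q p]
  rw [← Equiv.sum_comp (Equiv.prodComm D D)]
  apply Finset.sum_congr rfl
  intro e _
  simp only [Equiv.prodComm_apply, Prod.fst_swap, Prod.snd_swap, Matrix.transpose_mul,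
    TV_transpose, hK]
  rw [← Matrix.mul_assoc]
  ring

theorem Q2_mulVec (K : Matrix D D ℝ) (b : D → ℝ) :
    Q2 ν z K *ᵥ tens1 (fun _ => b) = ten2 (fun a p => (K * TV ν z (K *ᵥ b) * TV ν z b) a p) := by
  unfold Q2
  rw [opr2_mulVec]
  congr 1
  funext a p
  rw [Matrix.mul_apply]
  apply Finset.sum_congr rfl
  intro e _
  rw [← Matrix.mulVec_mulVec, ← Matrix.mulVec_mulVec, TV_bas_mulVec e b, TV_bas_mulVec e, ← colv_mul]
  simp only [colv]
  rw [TV_sym b p e]

theorem Q2_tr {K : Matrix D D ℝ} (hK : Kᵀ = K) : (Q2 ν z K)ᵀ = Q2 ν z K := by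
  unfold Q2
  rw [opr2_tr]
  congr 1
  · funext e
    rw [Matrix.transpose_mul, Matrix.transpose_mul, hK, TV_transpose, Matrix.mul_assoc]
  · funext e
    rw [TV_transpose]

end Pool.Agent.LRD
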