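import Pool.Agent.Lib_helper36.LRD.DecLegs
import Pool.Agent.Lib_helper36.LRD.Leg3b

/-!
# The noise of `A₁₃ K₁ A₁₂` and `K₁ A₁₂ K₁`
-/

set_option autoImplicit false
set_option linter.unusedSectionVars false
set_option linter.unusedSimpArgs false

open Finset Matrix

namespace Pool.Agent.LRD

open Pool.Agent.LRC (hs TV TH OpB TV_comm TV_transpose dot_TV_swap TV_sum TV_smul dot_symm_mulVec)

variable {D : Type} [Fintype D] [DecidableEq D] {Y : Type} [Fintype Y] {ν : Y → ℝ} {z : Y → D → ℝ}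

theorem dot_sq (v : D → ℝ) : v ⬝ᵥ v = ∑ i, v i ^ 2 := by
  simp only [dotProduct, sq]

theorem hs_colv (A : Matrix D D ℝ) : hs A = ∑ p, colv A p ⬝ᵥ colv A p := LRC.hs_eq_col A

/-- the column space contraction -/
theorem F3_sum_q (K : Matrix D D ℝ) (b : D → ℝ) (a p : D) :
    ∑ q, F3 ν z K b a p q * b q =
      (TV ν z (colv (K * TV ν z b * TV ν z b) p) *ᵥ (TV ν z b *ᵥ b)) a := by
  rw [Matrix.mulVec_mulVec]
  rfl

theorem F3_sum_q' (K : Matrix D D ℝ) (b : D → ℝ) (a p : D) :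
    ∑ q, F3 ν z K b a p q * b q =
      (TV ν z (TV ν z b *ᵥ b) *ᵥ colv (K * TV ν z b * TV ν z b) p) a := by
  rw [F3_sum_q, TV_comm]

theorem F3_sum_p (K : Matrix D D ℝ) (b : D → ℝ) (a q : D) :
    ∑ p, F3 ν z K b a p q * b p =
      (TV ν z (K *ᵥ (TV ν z b *ᵥ (TV ν z b *ᵥ b))) * TV ν z b) a q := by
  unfold F3
  simp only [Matrix.mul_apply, Finset.sum_mul]
  rw [Finset.sum_comm]
  apply Finset.sum_congr rfl
  intro e _
  have h1 : ∀ p : D, TV ν z (colv (K * TV ν z b * TV ν z b) p) a e * TV ν z b e q * b p =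
      (b p * TV ν z (colv (K * TV ν z b * TV ν z b) p) a e) * TV ν z b e q := by
    intro p
    ring
  have h2 : ∑ p, TV ν z (colv (K * TV ν z b * TV ν z b) p) a e * TV ν z b e q * b p =
      (∑ p, b p * TV ν z (colv (K * TV ν z b * TV ν z b) p) a e) * TV ν z b e q := by
    rw [Finset.sum_mul]
    exact Finset.sum_congr rfl fun p _ => h1 p
  have h3 := sum_TV (ν := ν) (z := z) (colv (K * TV ν z b * TV ν z b)) b a e
  rw [sum_colv, ← Matrix.mulVec_mulVec, ← Matrix.mulVec_mulVec] at h3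
  rw [← h3, ← h2]

theorem F3_sum_a (K : Matrix D D ℝ) (b : D → ℝ) (p q : D) :
    ∑ a, F3 ν z K b a p q * b a = (TV ν z b * TV ν z b * (K * TV ν z b * TV ν z b)) q p := by
  have h0 : ∀ w : D → ℝ, ∑ a, (TV ν z w * TV ν z b) a q * b a =
      ((TV ν z b * TV ν z b) *ᵥ w) q := by
    intro w
    have h2 : ∑ a, (TV ν z w * TV ν z b) a q * b a = ((TV ν z w * TV ν z b)ᵀ *ᵥ b) q := rfl
    rw [h2, Matrix.transpose_mul, TV_transpose, TV_transpose, ← Matrix.mulVec_mulVec, TV_comm w b,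
      Matrix.mulVec_mulVec]
  have h1 : (TV ν z b * TV ν z b * (K * TV ν z b * TV ν z b)) q p =
      colv (TV ν z b * TV ν z b * (K * TV ν z b * TV ν z b)) p q := rfl
  rw [h1, colv_mul (TV ν z b * TV ν z b)]
  exact h0 _

/-- the first vector `v = τ² b` -/
theorem n3_0_eq {b : D → ℝ} (hb : ∑ v, b v ^ 2 = 1) (K : Matrix D D ℝ) :
    nS (fun _ => b) (ten3 (F3 ν z K b)) ∅ =
      ((K *ᵥ (TV ν z b *ᵥ (TV ν z b *ᵥ b))) ⬝ᵥ (TV ν z b *ᵥ (TV ν z b *ᵥ b))) ^ 2 := by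
  rw [n3_0 hb]
  congr 1
  have h1 : ∀ a : D, ∑ p, ∑ q, F3 ν z K b a p q * (b a * b p * b q) =
      b a * ∑ q, (∑ p, F3 ν z K b a p q * b p) * b q := by
    intro a
    rw [Finset.sum_comm, Finset.mul_sum]
    apply Finset.sum_congr rfl
    intro q _
    rw [Finset.sum_mul, Finset.mul_sum]
    apply Finset.sum_congr rfl
    intro p _
    ring
  simp only [h1, F3_sum_p]
  have h2 : ∑ a, b a * ∑ q, (TV ν z (K *ᵥ (TV ν z b *ᵥ (TV ν z b *ᵥ b))) * TV ν z b) a q * b q =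
      b ⬝ᵥ (TV ν z (K *ᵥ (TV ν z b *ᵥ (TV ν z b *ᵥ b))) *ᵥ (TV ν z b *ᵥ b)) := by
    rw [Matrix.mulVec_mulVec _ (TV ν z (K *ᵥ _)) (TV ν z b)]
    rfl
  rw [h2, dot_TV_swap]

theorem n3_a_eq {b : D → ℝ} (hb : ∑ v, b v ^ 2 = 1) (K : Matrix D D ℝ) :
    nS (fun _ => b) (ten3 (F3 ν z K b)) {0} =
      (TV ν z (TV ν z b *ᵥ b) *ᵥ (K *ᵥ (TV ν z b *ᵥ (TV ν z b *ᵥ b)))) ⬝ᵥ
      (TV ν z (TV ν z b *ᵥ b) *ᵥ (K *ᵥ (TV ν z b *ᵥ (TV ν z b *ᵥ b)))) := by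
  rw [n3_a hb, dot_sq]
  apply Finset.sum_congr rfl
  intro a _
  congr 1
  have h1 : ∑ p, ∑ q, F3 ν z K b a p q * (b p * b q) =
      ∑ q, (∑ p, F3 ν z K b a p q * b p) * b q := by
    rw [Finset.sum_comm]
    apply Finset.sum_congr rfl
    intro q _
    rw [Finset.sum_mul]
    apply Finset.sum_congr rfl
    intro p _
    ring
  rw [h1]
  simp only [F3_sum_p]
  rw [TV_comm (TV ν z b *ᵥ b), Matrix.mulVec_mulVec _ (TV ν z (K *ᵥ _)) (TV ν z b)]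
  rfl

theorem n3_p_eq {b : D → ℝ} (hb : ∑ v, b v ^ 2 = 1) {K : Matrix D D ℝ} (hK : Kᵀ = K) :
    nS (fun _ => b) (ten3 (F3 ν z K b)) {1} =
      (TV ν z b *ᵥ (TV ν z b *ᵥ (K *ᵥ (TV ν z b *ᵥ (TV ν z b *ᵥ b))))) ⬝ᵥ
      (TV ν z b *ᵥ (TV ν z b *ᵥ (K *ᵥ (TV ν z b *ᵥ (TV ν z b *ᵥ b))))) := by
  rw [n3_p hb, dot_sq]
  apply Finset.sum_congr rfl
  intro p _
  congr 1
  have h1 : ∑ a, ∑ q, F3 ν z K b a p q * (b a * b q) =
      ∑ q, b q * (∑ a, F3 ν z K b a p q * b a) := by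
    rw [Finset.sum_comm]
    apply Finset.sum_congr rfl
    intro q _
    rw [Finset.mul_sum]
    apply Finset.sum_congr rfl
    intro a _
    ring
  rw [h1]
  simp only [F3_sum_a]
  have h2 : ∑ q, b q * (TV ν z b * TV ν z b * (K * TV ν z b * TV ν z b)) q p =
      ((TV ν z b * TV ν z b * (K * TV ν z b * TV ν z b))ᵀ *ᵥ b) p := by
    simp only [Matrix.mulVec, dotProduct, Matrix.transpose_apply]
    apply Finset.sum_congr rfl
    intro q _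
    ring
  rw [h2]
  simp only [Matrix.transpose_mul, TV_transpose, hK, Matrix.mulVec_mulVec, Matrix.mul_assoc]

theorem n3_q_eq {b : D → ℝ} (hb : ∑ v, b v ^ 2 = 1) (K : Matrix D D ℝ) :
    nS (fun _ => b) (ten3 (F3 ν z K b)) {2} =
      (TV ν z b *ᵥ (TV ν z b *ᵥ (K *ᵥ (TV ν z b *ᵥ (TV ν z b *ᵥ b))))) ⬝ᵥ
      (TV ν z b *ᵥ (TV ν z b *ᵥ (K *ᵥ (TV ν z b *ᵥ (TV ν z b *ᵥ b))))) := by
  rw [n3_q hb, dot_sq]
  apply Finset.sum_congr rfl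
  intro q _
  congr 1
  have h1 : ∑ a, ∑ p, F3 ν z K b a p q * (b a * b p) =
      ∑ p, b p * (∑ a, F3 ν z K b a p q * b a) := by
    rw [Finset.sum_comm]
    apply Finset.sum_congr rfl
    intro p _
    rw [Finset.mul_sum]
    apply Finset.sum_congr rfl
    intro a _
    ring
  rw [h1]
  simp only [F3_sum_a]
  have h2 : ∑ p, b p * (TV ν z b * TV ν z b * (K * TV ν z b * TV ν z b)) q p =
      ((TV ν z b * TV ν z b * (K * TV ν z b * TV ν z b)) *ᵥ b) q := by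
    simp only [Matrix.mulVec, dotProduct]
    apply Finset.sum_congr rfl
    intro q _
    ring
  rw [h2]
  simp only [Matrix.mulVec_mulVec, Matrix.mul_assoc]

theorem n3_ap_eq {b : D → ℝ} (hb : ∑ v, b v ^ 2 = 1) (K : Matrix D D ℝ) :
    nS (fun _ => b) (ten3 (F3 ν z K b)) {0, 1} =
      hs (TV ν z (TV ν z b *ᵥ b) * K * (TV ν z b * TV ν z b)) := by
  rw [n3_ap hb]
  simp only [F3_sum_q']
  rw [Finset.sum_comm, hs_colv]
  apply Finset.sum_congr rfl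
  intro p _
  rw [dot_sq]
  apply Finset.sum_congr rfl
  intro a _
  rw [← colv_mul]
  simp only [Matrix.mul_assoc]

theorem n3_aq_eq {b : D → ℝ} (hb : ∑ v, b v ^ 2 = 1) (K : Matrix D D ℝ) :
    nS (fun _ => b) (ten3 (F3 ν z K b)) {0, 2} =
      hs (TV ν z (K *ᵥ (TV ν z b *ᵥ (TV ν z b *ᵥ b))) * TV ν z b) := by
  rw [n3_aq hb]
  simp only [F3_sum_p]
  rfl

theorem n3_pq_eq {b : D → ℝ} (hb : ∑ v, b v ^ 2 = 1) (K : Matrix D D ℝ) :
    nS (fun _ => b) (ten3 (F3 ν z K b)) {1, 2} =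
      hs ((TV ν z b * TV ν z b) * K * (TV ν z b * TV ν z b)) := by
  rw [n3_pq hb]
  simp only [F3_sum_a]
  rw [Finset.sum_comm]
  simp only [← Matrix.mul_assoc]
  rfl

theorem n3_apq_eq {b : D → ℝ} (K : Matrix D D ℝ) :
    nS (fun _ => b) (ten3 (F3 ν z K b)) {0, 1, 2} =
      ∑ p, hs (TV ν z (colv (K * TV ν z b * TV ν z b) p) * TV ν z b) := by
  rw [n3_apq, Finset.sum_comm]
  rfl

/-- the noise of `Q3` (all the copies numbers of the legs `1` and `2` equal) -/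
noncomputable def noi3 (ν : Y → ℝ) (z : Y → D → ℝ) (K : Matrix D D ℝ) (b : D → ℝ) (t n : ℝ) : ℝ :=
  ((K *ᵥ (TV ν z b *ᵥ (TV ν z b *ᵥ b))) ⬝ᵥ (TV ν z b *ᵥ (TV ν z b *ᵥ b))) ^ 2 +
  (1 / t) * ((TV ν z (TV ν z b *ᵥ b) *ᵥ (K *ᵥ (TV ν z b *ᵥ (TV ν z b *ᵥ b)))) ⬝ᵥ
      (TV ν z (TV ν z b *ᵥ b) *ᵥ (K *ᵥ (TV ν z b *ᵥ (TV ν z b *ᵥ b))))) +
  (2 / n) * ((TV ν z b *ᵥ (TV ν z b *ᵥ (K *ᵥ (TV ν z b *ᵥ (TV ν z b *ᵥ b))))) ⬝ᵥ
      (TV ν z b *ᵥ (TV ν z b *ᵥ (K *ᵥ (TV ν z b *ᵥ (TV ν z b *ᵥ b)))))) +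
  (1 / (t * n)) * (hs (TV ν z (TV ν z b *ᵥ b) * K * (TV ν z b * TV ν z b)) +
      hs (TV ν z (K *ᵥ (TV ν z b *ᵥ (TV ν z b *ᵥ b))) * TV ν z b)) +
  (1 / n ^ 2) * hs ((TV ν z b * TV ν z b) * K * (TV ν z b * TV ν z b)) +
  (1 / (t * n ^ 2)) * ∑ p, hs (TV ν z (colv (K * TV ν z b * TV ν z b) p) * TV ν z b)

theorem noise_Q3 {b : D → ℝ} (hb : ∑ v, b v ^ 2 = 1) {K : Matrix D D ℝ} (hK : Kᵀ = K) (t n : ℕ)
    (ht : 1 ≤ t) (hn : 1 ≤ n) :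
    noise ![t, n, n] (fun _ => b) (Q3 ν z K) = noi3 ν z K b t n := by
  unfold noise
  rw [Q3_mulVec, pow3]
  rw [n3_0_eq hb, n3_a_eq hb, n3_p_eq hb hK, n3_q_eq hb, n3_ap_eq hb, n3_aq_eq hb, n3_pq_eq hb,
    n3_apq_eq]
  unfold noi3
  rw [Finset.prod_empty, Finset.prod_singleton, Finset.prod_singleton, Finset.prod_singleton,
    Finset.prod_pair (by decide), Finset.prod_pair (by decide), Finset.prod_pair (by decide),
    Finset.prod_insert (by decide), Finset.prod_pair (by decide)]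
  simp only [Matrix.cons_val_zero, Matrix.cons_val_one, Matrix.cons_val]
  have ht' : (t : ℝ) ≠ 0 := by positivity
  have hn' : (n : ℝ) ≠ 0 := by positivity
  field_simp
  ring

/-- exchange of the last two legs -/
theorem nS_swap {b : D → ℝ} (hb : ∑ v, b v ^ 2 = 1) (F : D → D → D → ℝ) :
    nS (fun _ => b) (ten3 fun a p q => F a q p) ∅ = nS (fun _ => b) (ten3 F) ∅ ∧
    nS (fun _ => b) (ten3 fun a p q => F a q p) {0} = nS (fun _ => b) (ten3 F) {0} ∧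
    nS (fun _ => b) (ten3 fun a p q => F a q p) {1} = nS (fun _ => b) (ten3 F) {2} ∧
    nS (fun _ => b) (ten3 fun a p q => F a q p) {2} = nS (fun _ => b) (ten3 F) {1} ∧
    nS (fun _ => b) (ten3 fun a p q => F a q p) {0, 1} = nS (fun _ => b) (ten3 F) {0, 2} ∧
    nS (fun _ => b) (ten3 fun a p q => F a q p) {0, 2} = nS (fun _ => b) (ten3 F) {0, 1} ∧
    nS (fun _ => b) (ten3 fun a p q => F a q p) {1, 2} = nS (fun _ => b) (ten3 F) {1, 2} ∧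
    nS (fun _ => b) (ten3 fun a p q => F a q p) {0, 1, 2} = nS (fun _ => b) (ten3 F) {0, 1, 2} := by
  refine ⟨?_, ?_, ?_, ?_, ?_, ?_, ?_, ?_⟩
  · rw [n3_0 hb, n3_0 hb]
    congr 1
    apply Finset.sum_congr rfl
    intro a _
    rw [Finset.sum_comm]
    apply Finset.sum_congr rfl
    intro p _
    apply Finset.sum_congr rfl
    intro q _
    ring
  · rw [n3_a hb, n3_a hb]
    apply Finset.sum_congr rfl
    intro a _
    congr 1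
    rw [Finset.sum_comm]
    apply Finset.sum_congr rfl
    intro p _
    apply Finset.sum_congr rfl
    intro q _
    ring
  · rw [n3_p hb, n3_q hb]
  · rw [n3_p hb, n3_q hb]
  · rw [n3_ap hb, n3_aq hb]
  · rw [n3_ap hb, n3_aq hb]
  · rw [n3_pq hb, n3_pq hb, Finset.sum_comm]
  · rw [n3_apq, n3_apq]
    apply Finset.sum_congr rfl
    intro a _
    rw [Finset.sum_comm]

theorem noise_Q3_tr {b : D → ℝ} (hb : ∑ v, b v ^ 2 = 1) {K : Matrix D D ℝ} (hK : Kᵀ = K) (t n : ℕ)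
    (ht : 1 ≤ t) (hn : 1 ≤ n) :
    noise ![t, n, n] (fun _ => b) (Q3 ν z K)ᵀ = noi3 ν z K b t n := by
  obtain ⟨s1, s2, s3, s4, s5, s6, s7, s8⟩ := nS_swap hb (F3 ν z K b)
  unfold noise
  rw [Q3_tr_mulVec hK, pow3]
  rw [s1, s2, s3, s4, s5, s6, s7, s8]
  rw [n3_0_eq hb, n3_a_eq hb, n3_p_eq hb hK, n3_q_eq hb, n3_ap_eq hb, n3_aq_eq hb, n3_pq_eq hb,
    n3_apq_eq]
  unfold noi3
  rw [Finset.prod_empty, Finset.prod_singleton, Finset.prod_singleton, Finset.prod_singleton,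
    Finset.prod_pair (by decide), Finset.prod_pair (by decide), Finset.prod_pair (by decide),
    Finset.prod_insert (by decide), Finset.prod_pair (by decide)]
  simp only [Matrix.cons_val_zero, Matrix.cons_val_one, Matrix.cons_val]
  have ht' : (t : ℝ) ≠ 0 := by positivity
  have hn' : (n : ℝ) ≠ 0 := by positivity
  field_simp
  ring

/-- the value of `Q3` -/
theorem value_Q3 (K : Matrix D D ℝ) (b : D → ℝ) :
    tens1 (fun _ => b) ⬝ᵥ (Q3 ν z K *ᵥ tens1 (fun _ => b)) =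
      (K *ᵥ (TV ν z b *ᵥ (TV ν z b *ᵥ b))) ⬝ᵥ (TV ν z b *ᵥ (TV ν z b *ᵥ b)) := by
  rw [Q3_mulVec]
  unfold dotProduct
  rw [sum_fin3]
  simp only [ten3, tens1, Fin.prod_univ_three, Matrix.cons_val_zero, Matrix.cons_val_one,
    Matrix.cons_val]
  have h1 : ∀ a : D, ∑ p, ∑ q, b a * b p * b q * F3 ν z K b a p q =
      b a * ∑ q, (∑ p, F3 ν z K b a p q * b p) * b q := by
    intro a
    rw [Finset.sum_comm, Finset.mul_sum]
    apply Finset.sum_congr rfl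
    intro q _
    rw [Finset.sum_mul, Finset.mul_sum]
    apply Finset.sum_congr rfl
    intro p _
    ring
  simp only [h1, F3_sum_p]
  have h2 : ∑ a, b a * ∑ q, (TV ν z (K *ᵥ (TV ν z b *ᵥ (TV ν z b *ᵥ b))) * TV ν z b) a q * b q =
      b ⬝ᵥ (TV ν z (K *ᵥ (TV ν z b *ᵥ (TV ν z b *ᵥ b))) *ᵥ (TV ν z b *ᵥ b)) := by
    rw [Matrix.mulVec_mulVec _ (TV ν z (K *ᵥ _)) (TV ν z b)]
    rfl
  rw [h2, dot_TV_swap]
  rfl

/-! ### Two legs -/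

/-- the noise of `Q2`, with `w = K b` -/
noncomputable def noi2 (ν : Y → ℝ) (z : Y → D → ℝ) (K : Matrix D D ℝ) (b : D → ℝ) (t n : ℝ) : ℝ :=
  ((K *ᵥ b) ⬝ᵥ (TV ν z (TV ν z b *ᵥ b) *ᵥ (K *ᵥ b))) ^ 2 +
  (1 / t) * ((K *ᵥ (TV ν z (TV ν z b *ᵥ b) *ᵥ (K *ᵥ b))) ⬝ᵥ
      (K *ᵥ (TV ν z (TV ν z b *ᵥ b) *ᵥ (K *ᵥ b)))) +
  (1 / n) * ((TV ν z b *ᵥ (TV ν z (K *ᵥ b) *ᵥ (K *ᵥ b))) ⬝ᵥ
      (TV ν z b *ᵥ (TV ν z (K *ᵥ b) *ᵥ (K *ᵥ b)))) +
  (1 / (t * n)) * hs (K * TV ν z (K *ᵥ b) * TV ν z b)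

theorem value_Q2 {K : Matrix D D ℝ} (hK : Kᵀ = K) (b : D → ℝ) :
    tens1 (fun _ => b) ⬝ᵥ (Q2 ν z K *ᵥ tens1 (fun _ => b)) =
      (K *ᵥ b) ⬝ᵥ (TV ν z (TV ν z b *ᵥ b) *ᵥ (K *ᵥ b)) := by
  rw [Q2_mulVec]
  unfold dotProduct
  rw [sum_fin2]
  simp only [ten2, tens1, Fin.prod_univ_two, Matrix.cons_val_zero, Matrix.cons_val_one]
  have h1 : ∑ a, ∑ p, b a * b p * (K * TV ν z (K *ᵥ b) * TV ν z b) a p =
      b ⬝ᵥ (K * TV ν z (K *ᵥ b) * TV ν z b) *ᵥ b := by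
    simp only [dotProduct, Matrix.mulVec, Finset.mul_sum]
    apply Finset.sum_congr rfl
    intro a _
    apply Finset.sum_congr rfl
    intro p _
    ring
  rw [h1, ← Matrix.mulVec_mulVec, ← Matrix.mulVec_mulVec, dot_symm_mulVec hK,
    TV_comm (K *ᵥ b) (TV ν z b *ᵥ b)]
  rfl

theorem noise_Q2 {b : D → ℝ} (hb : ∑ v, b v ^ 2 = 1) {K : Matrix D D ℝ} (hK : Kᵀ = K) (t n : ℕ)
    (ht : 1 ≤ t) (hn : 1 ≤ n) :
    noise ![t, n] (fun _ => b) (Q2 ν z K) = noi2 ν z K b t n := by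
  have e0 : nS (fun _ => b) (Q2 ν z K *ᵥ tens1 (fun _ => b)) ∅ =
      ((K *ᵥ b) ⬝ᵥ (TV ν z (TV ν z b *ᵥ b) *ᵥ (K *ᵥ b))) ^ 2 := by
    rw [Q2_mulVec, n2_0 hb]
    congr 1
    have h1 : ∑ a, ∑ p, (K * TV ν z (K *ᵥ b) * TV ν z b) a p * (b a * b p) =
        b ⬝ᵥ (K * TV ν z (K *ᵥ b) * TV ν z b) *ᵥ b := by
      simp only [dotProduct, Matrix.mulVec, Finset.mul_sum]
      apply Finset.sum_congr rfl
      intro a _
      apply Finset.sum_congr rfl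
      intro p _
      ring
    rw [h1, ← Matrix.mulVec_mulVec, ← Matrix.mulVec_mulVec, dot_symm_mulVec hK,
      TV_comm (K *ᵥ b) (TV ν z b *ᵥ b)]
  have e1 : nS (fun _ => b) (Q2 ν z K *ᵥ tens1 (fun _ => b)) {0} =
      (K *ᵥ (TV ν z (TV ν z b *ᵥ b) *ᵥ (K *ᵥ b))) ⬝ᵥ
      (K *ᵥ (TV ν z (TV ν z b *ᵥ b) *ᵥ (K *ᵥ b))) := by
    rw [Q2_mulVec, n2_a hb, dot_sq]
    apply Finset.sum_congr rfl
    intro a _
    congr 1
    rw [TV_comm (TV ν z b *ᵥ b), Matrix.mulVec_mulVec _ (TV ν z (K *ᵥ b)) (TV ν z b),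
      Matrix.mulVec_mulVec, ← Matrix.mul_assoc]
    rfl
  have e2 : nS (fun _ => b) (Q2 ν z K *ᵥ tens1 (fun _ => b)) {1} =
      (TV ν z b *ᵥ (TV ν z (K *ᵥ b) *ᵥ (K *ᵥ b))) ⬝ᵥ
      (TV ν z b *ᵥ (TV ν z (K *ᵥ b) *ᵥ (K *ᵥ b))) := by
    rw [Q2_mulVec, n2_p hb, dot_sq]
    apply Finset.sum_congr rfl
    intro p _
    congr 1
    have h2 : ∑ a, (K * TV ν z (K *ᵥ b) * TV ν z b) a p * b a =
        ((K * TV ν z (K *ᵥ b) * TV ν z b)ᵀ *ᵥ b) p := by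
      simp only [Matrix.mulVec, dotProduct, Matrix.transpose_apply]
    rw [h2]
    simp only [Matrix.transpose_mul, TV_transpose, hK, Matrix.mulVec_mulVec, Matrix.mul_assoc]
  have e3 : nS (fun _ => b) (Q2 ν z K *ᵥ tens1 (fun _ => b)) {0, 1} =
      hs (K * TV ν z (K *ᵥ b) * TV ν z b) := by
    rw [Q2_mulVec, n2_ap]
    rfl
  unfold noise
  rw [pow2, e0, e1, e2, e3]
  unfold noi2
  rw [Finset.prod_empty, Finset.prod_singleton, Finset.prod_singleton,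
    Finset.prod_pair (by decide)]
  simp only [Matrix.cons_val_zero, Matrix.cons_val_one]
  have ht' : (t : ℝ) ≠ 0 := by positivity
  have hn' : (n : ℝ) ≠ 0 := by positivity
  field_simp

end Pool.Agent.LRD
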