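import Mathlib

/-!
# Copies: a multi-leg operator applied to averaged copies
-/

set_option autoImplicit false
set_option linter.unusedSectionVars false

open Finset Matrix

namespace Pool.Agent.LRD

variable {L D : Type} [Fintype L] [DecidableEq L] [Fintype D] [DecidableEq D]

/-- all copies -/
abbrev Cp (t : L → ℕ) : Type := Σ s : L, Fin (t s)

/-- place of the chosen copies -/
def pl {t : L → ℕ} (c : ∀ s, Fin (t s)) (s : L) : Cp t := ⟨s, c s⟩

/-- product vector -/
noncomputable def tens {t : L → ℕ} (b : L → D → ℝ) (f : Cp t → D) : ℝ := ∏ q : Cp t, b q.1 (f q)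

/-- product vector over the legs -/
noncomputable def tens1 (b : L → D → ℝ) (u : L → D) : ℝ := ∏ s, b s (u s)

/-- the lifted operator -/
noncomputable def lift {t : L → ℕ} (c : ∀ s, Fin (t s)) (Q : Matrix (L → D) (L → D) ℝ) :
    Matrix (Cp t → D) (Cp t → D) ℝ := fun f f' =>
  Q (fun s => f (pl c s)) (fun s => f' (pl c s)) *
    ∏ q : Cp t, (if q.2 = c q.1 then 1 else if f q = f' q then 1 else 0)

/-- the averaged operator -/
noncomputable def avO (t : L → ℕ) (Q : Matrix (L → D) (L → D) ℝ) :
    Matrix (Cp t → D) (Cp t → D) ℝ := (∏ s, (1 / (t s : ℝ))) • ∑ c : (∀ s, Fin (t s)), lift c Q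

theorem lift_tr {t : L → ℕ} (c : ∀ s, Fin (t s)) (Q : Matrix (L → D) (L → D) ℝ) :
    (lift c Q)ᵀ = lift c Qᵀ := by
  funext f f'
  unfold lift
  rw [transpose_apply]
  show Q _ _ * _ = Qᵀ _ _ * _
  rw [transpose_apply]
  congr 1
  apply Finset.prod_congr rfl
  intro q _
  by_cases h : q.2 = c q.1
  · simp [h]
  · simp only [h, if_false]
    by_cases h2 : f' q = f q
    · simp [h2]
    · rw [if_neg h2, if_neg (fun h3 => h2 h3.symm)]

theorem avO_tr (t : L → ℕ) (Q : Matrix (L → D) (L → D) ℝ) : (avO t Q)ᵀ = avO t Qᵀ := by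
  unfold avO
  rw [transpose_smul, transpose_sum]
  simp only [lift_tr]

/-- product of sums over functions on the copies -/
theorem sum_prod_cp {t : L → ℕ} (φ : Cp t → D → ℝ) :
    ∑ f : Cp t → D, ∏ q, φ q (f q) = ∏ q, ∑ v, φ q v := by
  rw [Finset.prod_univ_sum, Fintype.piFinset_univ]

theorem prod_cp {t : L → ℕ} (φ : Cp t → ℝ) : ∏ q, φ q = ∏ s, ∏ j, φ ⟨s, j⟩ := by
  rw [Fintype.prod_sigma]

/-- evaluation as a sum over the legs -/
theorem eval_sum (X : (L → D) → ℝ) (w : L → D) :
    X w = ∑ u : L → D, X u * ∏ s, (if w s = u s then 1 else 0) := by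
  rw [Finset.sum_eq_single w]
  · simp
  · intro u _ hu
    have : ∃ s, w s ≠ u s := by
      by_contra h
      push Not at h
      exact hu (funext fun s => (h s).symm)
    obtain ⟨s, hs⟩ := this
    rw [Finset.prod_eq_zero (Finset.mem_univ s) (by rw [if_neg hs]), mul_zero]
  · intro h
    exact absurd (Finset.mem_univ w) h

/-- the rest of the product vector -/
noncomputable def rest {t : L → ℕ} (b : L → D → ℝ) (c : ∀ s, Fin (t s)) (f : Cp t → D) : ℝ :=
  ∏ q : Cp t, (if q.2 = c q.1 then 1 else b q.1 (f q))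

/-- product over the legs as a product over the copies -/
theorem prod_leg {t : L → ℕ} (c : ∀ s, Fin (t s)) (g : Cp t → ℝ) :
    ∏ s, g (pl c s) = ∏ q : Cp t, (if q.2 = c q.1 then g q else 1) := by
  rw [prod_cp]
  apply Finset.prod_congr rfl
  intro s _
  rw [Finset.prod_eq_single (c s)]
  · rw [if_pos rfl]
    rfl
  · intro j _ hj
    rw [if_neg hj]
  · intro h
    exact absurd (Finset.mem_univ _) h

theorem leg_ind {t : L → ℕ} (c : ∀ s, Fin (t s)) (f : Cp t → D) (u : L → D) :
    ∏ s, (if f (pl c s) = u s then (1 : ℝ) else 0) =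
      ∏ q : Cp t, (if q.2 = c q.1 then (if f q = u q.1 then (1 : ℝ) else 0) else 1) :=
  prod_leg c (fun q : Cp t => if f q = u q.1 then (1 : ℝ) else 0)

theorem lift_tens {t : L → ℕ} (b : L → D → ℝ) (c : ∀ s, Fin (t s))
    (Q : Matrix (L → D) (L → D) ℝ) (f : Cp t → D) :
    (lift c Q *ᵥ tens b) f = (Q *ᵥ tens1 b) (fun s => f (pl c s)) * rest b c f := by
  show ∑ f' : Cp t → D, lift c Q f f' * tens b f' = _
  have h1 : ∀ f' : Cp t → D, lift c Q f f' * tens b f' =
      ∑ u : L → D, Q (fun s => f (pl c s)) u *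
        ∏ q : Cp t, ((if q.2 = c q.1 then (if f' q = u q.1 then 1 else 0) else
          (if f q = f' q then 1 else 0)) * b q.1 (f' q)) := by
    intro f'
    unfold lift tens
    rw [eval_sum (Q (fun s => f (pl c s))) (fun s => f' (pl c s)), Finset.sum_mul, Finset.sum_mul]
    apply Finset.sum_congr rfl
    intro u _
    rw [leg_ind c f' u, mul_assoc, mul_assoc,
      ← Finset.prod_mul_distrib, ← Finset.prod_mul_distrib]
    congr 1
    apply Finset.prod_congr rfl
    intro q _
    split_ifs <;> ring
  simp only [h1]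
  rw [Finset.sum_comm]
  have h2 : ∀ u : L → D, ∑ f' : Cp t → D, Q (fun s => f (pl c s)) u *
        ∏ q : Cp t, ((if q.2 = c q.1 then (if f' q = u q.1 then 1 else 0) else
          (if f q = f' q then 1 else 0)) * b q.1 (f' q)) =
      Q (fun s => f (pl c s)) u * tens1 b u * rest b c f := by
    intro u
    rw [← Finset.mul_sum, sum_prod_cp (fun q v => (if q.2 = c q.1 then
      (if v = u q.1 then (1 : ℝ) else 0) else (if f q = v then 1 else 0)) * b q.1 v), mul_assoc]
    congr 1
    have h3 : tens1 b u = ∏ q : Cp t, (if q.2 = c q.1 then b q.1 (u q.1) else 1) :=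
      prod_leg c (fun q : Cp t => b q.1 (u q.1))
    rw [h3]
    unfold rest
    rw [← Finset.prod_mul_distrib]
    apply Finset.prod_congr rfl
    intro q _
    by_cases h : q.2 = c q.1
    · simp [h]
    · simp [h]
  simp only [h2]
  rw [← Finset.sum_mul]
  rfl

/-- the pair kernel -/
noncomputable def gk (b : L → D → ℝ) (eq : L → Prop) [DecidablePred eq] (u u' : L → D) (s : L) : ℝ :=
  if eq s then (if u s = u' s then 1 else 0) else b s (u s) * b s (u' s)

theorem gram_pair {t : L → ℕ} {b : L → D → ℝ} (hb : ∀ s, ∑ v, b s v ^ 2 = 1)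
    (c c' : ∀ s, Fin (t s)) (X : (L → D) → ℝ) :
    ∑ f : Cp t → D, (X (fun s => f (pl c s)) * rest b c f) * (X (fun s => f (pl c' s)) * rest b c' f) =
      ∑ u : L → D, ∑ u' : L → D, X u * X u' * ∏ s, gk b (fun s => c s = c' s) u u' s := by
  have h1 : ∀ f : Cp t → D, (X (fun s => f (pl c s)) * rest b c f) *
      (X (fun s => f (pl c' s)) * rest b c' f) =
      ∑ u : L → D, ∑ u' : L → D, X u * X u' * ∏ q : Cp t,
        ((if q.2 = c q.1 then (if f q = u q.1 then 1 else 0) else b q.1 (f q)) *
         (if q.2 = c' q.1 then (if f q = u' q.1 then 1 else 0) else b q.1 (f q))) := by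
    intro f
    have e1 : ∀ c : (∀ s, Fin (t s)), X (fun s => f (pl c s)) * rest b c f =
        ∑ u : L → D, X u * (∏ s, (if f (pl c s) = u s then (1 : ℝ) else 0)) * rest b c f := by
      intro c
      rw [eval_sum X (fun s => f (pl c s)), Finset.sum_mul]
    rw [e1, e1, Finset.sum_mul_sum]
    apply Finset.sum_congr rfl
    intro u _
    apply Finset.sum_congr rfl
    intro u' _
    rw [leg_ind c f u, leg_ind c' f u']
    unfold rest
    have h2 : ∀ a b' p q r s : ℝ, a * p * q * (b' * r * s) = a * b' * ((p * q) * (r * s)) := by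
      intros; ring
    rw [h2, ← Finset.prod_mul_distrib, ← Finset.prod_mul_distrib, ← Finset.prod_mul_distrib]
    congr 1
    apply Finset.prod_congr rfl
    intro q _
    split_ifs <;> ring
  simp only [h1]
  rw [Finset.sum_comm]
  apply Finset.sum_congr rfl
  intro u _
  rw [Finset.sum_comm]
  apply Finset.sum_congr rfl
  intro u' _
  rw [← Finset.mul_sum, sum_prod_cp (fun q v =>
    ((if q.2 = c q.1 then (if v = u q.1 then (1 : ℝ) else 0) else b q.1 v) *
     (if q.2 = c' q.1 then (if v = u' q.1 then (1 : ℝ) else 0) else b q.1 v)))]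
  congr 1
  rw [prod_cp]
  apply Finset.prod_congr rfl
  intro s _
  unfold gk
  by_cases h : c s = c' s
  · rw [if_pos h, Finset.prod_eq_single (c s)]
    · simp only [h, if_true]
      by_cases h3 : u s = u' s
      · simp [h3]
      · rw [if_neg h3]
        apply Finset.sum_eq_zero
        intro v _
        by_cases h4 : v = u s
        · have : v ≠ u' s := fun h5 => h3 (h4 ▸ h5)
          simp [this]
        · simp [h4]
    · intro j _ hj
      have hj' : j ≠ c' s := fun h5 => hj (h5.trans h.symm)
      simp only [hj, hj', if_false]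
      rw [← hb s]
      apply Finset.sum_congr rfl
      intro v _
      ring
    · intro h5
      exact absurd (Finset.mem_univ _) h5
  · rw [if_neg h]
    have h2 : ∀ j, (∑ v, (if j = c s then (if v = u s then (1 : ℝ) else 0) else b s v) *
        (if j = c' s then (if v = u' s then (1 : ℝ) else 0) else b s v)) =
        (if j = c s then b s (u s) else 1) * (if j = c' s then b s (u' s) else 1) := by
      intro j
      by_cases h3 : j = c s
      · have h4 : j ≠ c' s := fun h5 => h (h3.symm.trans h5)
        simp [h3, h4, h]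
      · by_cases h4 : j = c' s
        · simp [h4, Ne.symm h]
        · simp only [h3, h4, if_false, mul_one]
          rw [← hb s]
          apply Finset.sum_congr rfl
          intro v _
          ring
    simp only [h2]
    rw [Finset.prod_mul_distrib, Finset.prod_ite_eq' Finset.univ (c s), Finset.prod_ite_eq']
    simp

end Pool.Agent.LRD
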