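import Pool.Agent.Lib_helper36.LRD.Clip
import Pool.Agent.Lib_helper36.LRD.Dec2

/-!
# The decoding lemma

`dec_main` : for a sign matrix `M` with the upper product regularity `UPR μ ν M U A B`, bounded
vectors `Ψ x` and arbitrary real matrices `O y`,
`|E (M - U) <Ψ x, O y Ψ x>| ≤ R ε + (2 / R) E |O y Ψ x| |(O y)ᵀ Ψ x|`.
`dec_sq` : optimised form.
-/

set_option autoImplicit false
set_option linter.unusedSectionVars false

open Finset Matrix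

namespace Pool.Agent.LRD

open Pool.Agent.LR2

variable {X Y n : Type} [Fintype X] [Fintype Y] [Fintype n] [DecidableEq n]

/-- the error term -/
noncomputable def decEps (μ : X → ℝ) (ν : Y → ℝ) (M : X → Y → ℝ) (U A B : ℝ) (N p m : ℕ) : ℝ :=
  Real.sqrt (1 + (2 * (2 * p - 1) * (N : ℝ) ^ ((1 : ℝ) / p)) * m) / m +
    (2 * (A + B * (m * Real.log 2 + 2)) + (U - em μ ν M))

theorem tg_neg (μ : X → ℝ) (ν : Y → ℝ) (M : X → Y → ℝ) (U : ℝ) (Ψ : X → n → ℝ)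
    (O : Y → Matrix n n ℝ) : tg μ ν M U Ψ (fun y => -O y) = -tg μ ν M U Ψ O := by
  unfold tg
  rw [← Finset.sum_neg_distrib]
  apply Finset.sum_congr rfl
  intro x _
  rw [← Finset.sum_neg_distrib]
  apply Finset.sum_congr rfl
  intro y _
  rw [neg_mulVec, dotProduct_neg]
  ring

theorem contr_neg {O : Matrix n n ℝ} (hO : Contr O) : Contr (-O) := by
  intro v
  rw [neg_mulVec, neg_dotProduct, dotProduct_neg, neg_neg]
  exact hO v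

theorem dec_contr_abs [Inhabited Y] {μ : X → ℝ} {ν : Y → ℝ} (hμ : IsPr μ) (hν : IsPr ν)
    {M : X → Y → ℝ} (hM : ∀ x y, M x y = 1 ∨ M x y = -1)
    {U A B : ℝ} (hA : 0 ≤ A) (hB : 0 ≤ B) (hU : UPR μ ν M U A B) {Ψ : X → n → ℝ}
    (hΨ : ∀ x, Ψ x ⬝ᵥ Ψ x ≤ 1) {O : Y → Matrix n n ℝ}
    (hO1 : ∀ y, Contr (O y)) {p : ℕ} (hp : 1 ≤ p) {m : ℕ} (hm : 1 ≤ m) :
    |tg μ ν M U Ψ O| ≤ decEps μ ν M U A B (Fintype.card n) p m := by
  have hm0 : (0 : ℝ) < m := by exact_mod_cast hm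
  have hsym : ∀ P : Y → Matrix n n ℝ, tg μ ν M U Ψ (fun y => (1 / 2 : ℝ) • (P y + (P y)ᵀ)) =
      tg μ ν M U Ψ P := by
    intro P
    unfold tg
    apply Finset.sum_congr rfl
    intro x _
    apply Finset.sum_congr rfl
    intro y _
    rw [sym_form]
  have key : ∀ P : Y → Matrix n n ℝ, (∀ y, Contr (P y)) →
      tg μ ν M U Ψ P ≤ decEps μ ν M U A B (Fintype.card n) p m := by
    intro P hP
    have h := dec_contr hμ hν hM hA hB hU hΨ (O := fun y => (1 / 2 : ℝ) • (P y + (P y)ᵀ))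
      (fun y => sym_herm (P y)) (fun y => contr_sym (hP y)) hp hm
    rw [hsym] at h
    unfold decEps
    have h1 : tg μ ν M U Ψ P = (m * tg μ ν M U Ψ P) / m := by field_simp
    rw [h1]
    calc (m * tg μ ν M U Ψ P) / m ≤ (Real.sqrt (1 +
      (2 * (2 * p - 1) * (Fintype.card n : ℝ) ^ ((1 : ℝ) / p)) * m) +
      m * (2 * (A + B * (m * Real.log 2 + 2)) + (U - em μ ν M))) / m :=
          div_le_div_of_nonneg_right h hm0.le
      _ = _ := by field_simp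
  rw [abs_le]
  constructor
  · have h := key (fun y => -O y) (fun y => contr_neg (hO1 y))
    rw [tg_neg] at h
    linarith
  · exact key O hO1

theorem dec_main [Inhabited Y] {μ : X → ℝ} {ν : Y → ℝ} (hμ : IsPr μ) (hν : IsPr ν)
    {M : X → Y → ℝ} (hM : ∀ x y, M x y = 1 ∨ M x y = -1)
    {U A B : ℝ} (hU1 : |U| ≤ 1) (hA : 0 ≤ A) (hB : 0 ≤ B) (hU : UPR μ ν M U A B) {Ψ : X → n → ℝ}
    (hΨ : ∀ x, Ψ x ⬝ᵥ Ψ x ≤ 1) (O : Y → Matrix n n ℝ) {p : ℕ} (hp : 1 ≤ p) {m : ℕ} (hm : 1 ≤ m)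
    {R : ℝ} (hR : 0 < R) :
    |tg μ ν M U Ψ O| ≤ R * decEps μ ν M U A B (Fintype.card n) p m +
      2 / R * ∑ x, ∑ y, μ x * ν y * (Real.sqrt ((O y *ᵥ Ψ x) ⬝ᵥ (O y *ᵥ Ψ x)) *
        Real.sqrt (((O y)ᵀ *ᵥ Ψ x) ⬝ᵥ ((O y)ᵀ *ᵥ Ψ x))) := by
  choose K hK1 hK2 using fun y => clip (O y) hR
  have h1 : tg μ ν M U Ψ O = R * tg μ ν M U Ψ (fun y => (1 / R) • (O y * K y)) +
      ∑ x, ∑ y, μ x * ν y * ((M x y - U) * (((O y)ᵀ *ᵥ Ψ x) ⬝ᵥ (Ψ x - K y *ᵥ Ψ x))) := by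
    unfold tg
    rw [Finset.mul_sum, ← Finset.sum_add_distrib]
    apply Finset.sum_congr rfl
    intro x _
    rw [Finset.mul_sum, ← Finset.sum_add_distrib]
    apply Finset.sum_congr rfl
    intro y _
    have h2 : Ψ x ⬝ᵥ (((1 / R) • (O y * K y)) *ᵥ Ψ x) =
        (1 / R) * (((O y)ᵀ *ᵥ Ψ x) ⬝ᵥ (K y *ᵥ Ψ x)) := by
      rw [smul_mulVec, dotProduct_smul, smul_eq_mul, ← mulVec_mulVec, dot_mulVec_tr (O y)]
    rw [h2, dotProduct_sub, ← dot_mulVec_tr (O y) (Ψ x) (Ψ x)]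
    field_simp
    ring
  have h2 := dec_contr_abs hμ hν hM hA hB hU hΨ (O := fun y => (1 / R) • (O y * K y)) hK1 hp hm
  have h3 : |∑ x, ∑ y, μ x * ν y * ((M x y - U) * (((O y)ᵀ *ᵥ Ψ x) ⬝ᵥ (Ψ x - K y *ᵥ Ψ x)))| ≤
      2 / R * ∑ x, ∑ y, μ x * ν y * (Real.sqrt ((O y *ᵥ Ψ x) ⬝ᵥ (O y *ᵥ Ψ x)) *
        Real.sqrt (((O y)ᵀ *ᵥ Ψ x) ⬝ᵥ ((O y)ᵀ *ᵥ Ψ x))) := by
    refine (Finset.abs_sum_le_sum_abs _ _).trans ?_
    rw [Finset.mul_sum]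
    apply Finset.sum_le_sum
    intro x _
    refine (Finset.abs_sum_le_sum_abs _ _).trans ?_
    rw [Finset.mul_sum]
    apply Finset.sum_le_sum
    intro y _
    have hw : 0 ≤ μ x * ν y := mul_nonneg (hμ.nonneg x) (hν.nonneg y)
    rw [abs_mul, abs_of_nonneg hw, abs_mul]
    have h4 : |M x y - U| ≤ 2 := by
      have h5 := abs_le.mp hU1
      rw [abs_le]
      rcases hM x y with h | h <;> rw [h] <;> constructor <;> linarith [h5.1, h5.2]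
    have h5 : |((O y)ᵀ *ᵥ Ψ x) ⬝ᵥ (Ψ x - K y *ᵥ Ψ x)| ≤
        Real.sqrt (((O y)ᵀ *ᵥ Ψ x) ⬝ᵥ ((O y)ᵀ *ᵥ Ψ x)) *
        ((1 / R) * Real.sqrt ((O y *ᵥ Ψ x) ⬝ᵥ (O y *ᵥ Ψ x))) := by
      refine (dot_abs _ _).trans ?_
      apply mul_le_mul_of_nonneg_left _ (Real.sqrt_nonneg _)
      calc Real.sqrt ((Ψ x - K y *ᵥ Ψ x) ⬝ᵥ (Ψ x - K y *ᵥ Ψ x))
          ≤ Real.sqrt ((1 / R) ^ 2 * ((O y *ᵥ Ψ x) ⬝ᵥ (O y *ᵥ Ψ x))) :=
            Real.sqrt_le_sqrt (hK2 y (Ψ x))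
        _ = _ := by
            rw [Real.sqrt_mul (sq_nonneg _), Real.sqrt_sq (by positivity)]
    calc μ x * ν y * (|M x y - U| * |((O y)ᵀ *ᵥ Ψ x) ⬝ᵥ (Ψ x - K y *ᵥ Ψ x)|)
        ≤ μ x * ν y * (2 * (Real.sqrt (((O y)ᵀ *ᵥ Ψ x) ⬝ᵥ ((O y)ᵀ *ᵥ Ψ x)) *
          ((1 / R) * Real.sqrt ((O y *ᵥ Ψ x) ⬝ᵥ (O y *ᵥ Ψ x))))) := by
          apply mul_le_mul_of_nonneg_left _ hw
          exact mul_le_mul h4 h5 (abs_nonneg _) (by norm_num)
      _ = _ := by ring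
  rw [h1]
  refine (abs_add_le _ _).trans ?_
  rw [abs_mul, abs_of_pos hR]
  exact add_le_add (mul_le_mul_of_nonneg_left h2 hR.le) h3

/-- optimisation over `R` -/
theorem opt_R {t ε E : ℝ} (hε : 0 ≤ ε) (hE : 0 ≤ E) (h : ∀ R : ℝ, 0 < R → |t| ≤ R * ε + 2 / R * E) :
    t ^ 2 ≤ 8 * (ε * E) := by
  have ht : 0 ≤ |t| := abs_nonneg t
  rcases eq_or_lt_of_le hε with h0 | h0
  · have h1 : |t| ≤ 0 := by
      apply le_of_forall_pos_le_add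
      intro δ hδ
      have h2 := h (2 * E / δ + 1) (by positivity)
      rw [← h0, mul_zero, zero_add] at h2
      refine h2.trans ?_
      rw [zero_add, div_mul_eq_mul_div, div_le_iff₀ (by positivity)]
      have : δ * (2 * E / δ + 1) = 2 * E + δ := by field_simp
      rw [this]
      linarith
    have h2 : t = 0 := abs_eq_zero.mp (le_antisymm h1 ht)
    rw [h2, ← h0]
    simp
  · rcases eq_or_lt_of_le hE with h3 | h3
    · have h1 : |t| ≤ 0 := by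
        apply le_of_forall_pos_le_add
        intro δ hδ
        have h2 := h (δ / ε) (by positivity)
        rw [← h3, mul_zero, add_zero] at h2
        refine h2.trans ?_
        rw [zero_add, div_mul_cancel₀ _ h0.ne']
      have h2 : t = 0 := abs_eq_zero.mp (le_antisymm h1 ht)
      rw [h2, ← h3]
      simp
    · have hs : 0 < Real.sqrt (2 * E / ε) := Real.sqrt_pos.mpr (by positivity)
      have h1 := h _ hs
      have h2 : 2 / Real.sqrt (2 * E / ε) * E = Real.sqrt (2 * E / ε) * ε := by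
        rw [div_mul_eq_mul_div, div_eq_iff hs.ne']
        have h4 : Real.sqrt (2 * E / ε) * ε * Real.sqrt (2 * E / ε) =
            (Real.sqrt (2 * E / ε) * Real.sqrt (2 * E / ε)) * ε := by ring
        rw [h4, Real.mul_self_sqrt (by positivity)]
        field_simp
      rw [h2] at h1
      have h3' : |t| ≤ 2 * (Real.sqrt (2 * E / ε) * ε) := by linarith
      have h4 : |t| ^ 2 ≤ (2 * (Real.sqrt (2 * E / ε) * ε)) ^ 2 :=
        pow_le_pow_left₀ ht h3' 2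
      rw [sq_abs] at h4
      refine h4.trans (le_of_eq ?_)
      rw [mul_pow, mul_pow, Real.sq_sqrt (by positivity)]
      field_simp
      ring

theorem cs_weighted {μ : X → ℝ} {ν : Y → ℝ} (hμ : IsPr μ) (hν : IsPr ν) (f g : X → Y → ℝ)
    (hf : ∀ x y, 0 ≤ f x y) (hg : ∀ x y, 0 ≤ g x y) :
    ∑ x, ∑ y, μ x * ν y * (Real.sqrt (f x y) * Real.sqrt (g x y)) ≤
      Real.sqrt (∑ x, ∑ y, μ x * ν y * f x y) * Real.sqrt (∑ x, ∑ y, μ x * ν y * g x y) := by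
  rw [← Real.sqrt_mul (Finset.sum_nonneg fun x _ => Finset.sum_nonneg fun y _ =>
    mul_nonneg (mul_nonneg (hμ.nonneg x) (hν.nonneg y)) (hf x y))]
  apply Real.le_sqrt_of_sq_le
  rw [← Fintype.sum_prod_type' (f := fun x y => μ x * ν y * (Real.sqrt (f x y) * Real.sqrt (g x y))),
    ← Fintype.sum_prod_type' (f := fun x y => μ x * ν y * f x y),
    ← Fintype.sum_prod_type' (f := fun x y => μ x * ν y * g x y)]
  have h := Finset.sum_mul_sq_le_sq_mul_sq (Finset.univ : Finset (X × Y))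
    (fun z => Real.sqrt (μ z.1 * ν z.2) * Real.sqrt (f z.1 z.2))
    (fun z => Real.sqrt (μ z.1 * ν z.2) * Real.sqrt (g z.1 z.2))
  have hw : ∀ z : X × Y, 0 ≤ μ z.1 * ν z.2 := fun z => mul_nonneg (hμ.nonneg _) (hν.nonneg _)
  have e1 : ∀ z : X × Y, Real.sqrt (μ z.1 * ν z.2) * Real.sqrt (f z.1 z.2) *
      (Real.sqrt (μ z.1 * ν z.2) * Real.sqrt (g z.1 z.2)) =
      μ z.1 * ν z.2 * (Real.sqrt (f z.1 z.2) * Real.sqrt (g z.1 z.2)) := by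
    intro z
    have := Real.mul_self_sqrt (hw z)
    calc _ = (Real.sqrt (μ z.1 * ν z.2) * Real.sqrt (μ z.1 * ν z.2)) *
          (Real.sqrt (f z.1 z.2) * Real.sqrt (g z.1 z.2)) := by ring
      _ = _ := by rw [this]
  have e2 : ∀ z : X × Y, (Real.sqrt (μ z.1 * ν z.2) * Real.sqrt (f z.1 z.2)) ^ 2 =
      μ z.1 * ν z.2 * f z.1 z.2 := by
    intro z
    rw [mul_pow, Real.sq_sqrt (hw z), Real.sq_sqrt (hf _ _)]
  have e3 : ∀ z : X × Y, (Real.sqrt (μ z.1 * ν z.2) * Real.sqrt (g z.1 z.2)) ^ 2 =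
      μ z.1 * ν z.2 * g z.1 z.2 := by
    intro z
    rw [mul_pow, Real.sq_sqrt (hw z), Real.sq_sqrt (hg _ _)]
  simp only [e1, e2, e3] at h
  exact h

/-- **decoding lemma, optimised** -/
theorem dec_sq [Inhabited Y] {μ : X → ℝ} {ν : Y → ℝ} (hμ : IsPr μ) (hν : IsPr ν)
    {M : X → Y → ℝ} (hM : ∀ x y, M x y = 1 ∨ M x y = -1)
    {U A B : ℝ} (hU1 : |U| ≤ 1) (hA : 0 ≤ A) (hB : 0 ≤ B) (hU : UPR μ ν M U A B) {Ψ : X → n → ℝ}
    (hΨ : ∀ x, Ψ x ⬝ᵥ Ψ x ≤ 1) (O : Y → Matrix n n ℝ) {p : ℕ} (hp : 1 ≤ p) {m : ℕ} (hm : 1 ≤ m) :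
    tg μ ν M U Ψ O ^ 2 ≤ 8 * (decEps μ ν M U A B (Fintype.card n) p m *
      (Real.sqrt (∑ x, ∑ y, μ x * ν y * ((O y *ᵥ Ψ x) ⬝ᵥ (O y *ᵥ Ψ x))) *
        Real.sqrt (∑ x, ∑ y, μ x * ν y * (((O y)ᵀ *ᵥ Ψ x) ⬝ᵥ ((O y)ᵀ *ᵥ Ψ x))))) := by
  have hε : 0 ≤ decEps μ ν M U A B (Fintype.card n) p m :=
    (abs_nonneg _).trans (dec_contr_abs hμ hν hM hA hB hU hΨ (O := fun _ => 0)
      (fun y v => by simpa using dot_self_nonneg v) hp hm)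
  have hE : 0 ≤ ∑ x, ∑ y, μ x * ν y * (Real.sqrt ((O y *ᵥ Ψ x) ⬝ᵥ (O y *ᵥ Ψ x)) *
        Real.sqrt (((O y)ᵀ *ᵥ Ψ x) ⬝ᵥ ((O y)ᵀ *ᵥ Ψ x))) :=
    Finset.sum_nonneg fun x _ => Finset.sum_nonneg fun y _ =>
      mul_nonneg (mul_nonneg (hμ.nonneg x) (hν.nonneg y)) (by positivity)
  refine (opt_R hε hE fun R hR => dec_main hμ hν hM hU1 hA hB hU hΨ O hp hm hR).trans ?_
  apply mul_le_mul_of_nonneg_left _ (by norm_num)
  apply mul_le_mul_of_nonneg_left _ hε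
  exact cs_weighted hμ hν (fun x y => (O y *ᵥ Ψ x) ⬝ᵥ (O y *ᵥ Ψ x))
    (fun x y => ((O y)ᵀ *ᵥ Ψ x) ⬝ᵥ ((O y)ᵀ *ᵥ Ψ x)) (fun _ _ => dot_self_nonneg _)
    (fun _ _ => dot_self_nonneg _)

end Pool.Agent.LRD
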