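import Pool.Agent.Lib_helper36.LRD.Step
import Pool.Agent.Lib_helper59.LR2.Cell

/-!
# Matrix martingale with scalar differences and deterministic symmetric coefficients
-/

set_option autoImplicit false
set_option linter.unusedSectionVars false

open Finset Matrix

namespace Pool.Agent.LRD

open Pool.Agent.LR2

section Cond

variable {X T : Type} [Fintype X] [DecidableEq T]

/-- mass of the cell of `x` -/
noncomputable def cms (μ : X → ℝ) (κ : X → T) (x : X) : ℝ := ∑ x', if κ x' = κ x then μ x' else 0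

/-- conditional mean -/
noncomputable def cmn (μ : X → ℝ) (κ : X → T) (f : X → ℝ) (x : X) : ℝ :=
  (∑ x', if κ x' = κ x then μ x' * f x' else 0) / cms μ κ x

theorem cms_congr (μ : X → ℝ) (κ : X → T) {x y : X} (h : κ x = κ y) : cms μ κ x = cms μ κ y := by
  unfold cms
  rw [h]

theorem cmn_congr (μ : X → ℝ) (κ : X → T) (f : X → ℝ) {x y : X} (h : κ x = κ y) :
    cmn μ κ f x = cmn μ κ f y := by
  unfold cmn
  rw [cms_congr μ κ h, h]

theorem cms_pos {μ : X → ℝ} (hμ : ∀ x, 0 ≤ μ x) (κ : X → T) {x : X} (hx : μ x ≠ 0) :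
    0 < cms μ κ x := by
  unfold cms
  have h1 : μ x ≤ ∑ x', if κ x' = κ x then μ x' else 0 := by
    have := Finset.single_le_sum (s := Finset.univ) (f := fun x' => if κ x' = κ x then μ x' else 0)
      (fun i _ => by
        show 0 ≤ if κ i = κ x then μ i else 0
        split_ifs
        · exact hμ i
        · exact le_rfl) (Finset.mem_univ x)
    simpa using this
  have h2 : 0 < μ x := lt_of_le_of_ne (hμ x) (Ne.symm hx)
  linarith

/-- tower property -/
theorem cmn_tower {μ : X → ℝ} (hμ : ∀ x, 0 ≤ μ x) (κ : X → T) (f h : X → ℝ)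
    (hh : ∀ x y, κ x = κ y → h x = h y) :
    ∑ x, μ x * (cmn μ κ f x * h x) = ∑ x, μ x * (f x * h x) := by
  have h1 : ∀ x, μ x * (cmn μ κ f x * h x) =
      ∑ x', (if κ x' = κ x then μ x' * f x' * h x' * (μ x / cms μ κ x') else 0) := by
    intro x
    unfold cmn
    rw [div_mul_eq_mul_div, mul_div_assoc', Finset.sum_mul, Finset.mul_sum, Finset.sum_div]
    apply Finset.sum_congr rfl
    intro x' _
    split_ifs with h2
    · rw [hh x' x h2, cms_congr μ κ h2]
      ring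
    · simp
  simp only [h1]
  rw [Finset.sum_comm]
  apply Finset.sum_congr rfl
  intro x' _
  by_cases h0 : μ x' = 0
  · simp [h0]
  · have h3 := cms_pos hμ κ h0
    have h4 : ∑ x, (if κ x' = κ x then μ x' * f x' * h x' * (μ x / cms μ κ x') else 0) =
        μ x' * f x' * h x' * ((∑ x, if κ x = κ x' then μ x else 0) / cms μ κ x') := by
      rw [Finset.sum_div, Finset.mul_sum]
      apply Finset.sum_congr rfl
      intro x _
      by_cases h5 : κ x' = κ x
      · rw [if_pos h5, if_pos h5.symm]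
      · rw [if_neg h5, if_neg (fun h6 => h5 h6.symm)]
        simp
    rw [h4]
    have h5 : (∑ x, if κ x = κ x' then μ x else 0) / cms μ κ x' = 1 := by
      unfold cms at h3 ⊢
      exact div_self h3.ne'
    rw [h5]
    ring

theorem cmn_orth {μ : X → ℝ} (hμ : ∀ x, 0 ≤ μ x) (κ : X → T) (f h : X → ℝ)
    (hh : ∀ x y, κ x = κ y → h x = h y) :
    ∑ x, μ x * ((f x - cmn μ κ f x) * h x) = 0 := by
  have h1 : ∀ x, μ x * ((f x - cmn μ κ f x) * h x) =
      μ x * (f x * h x) - μ x * (cmn μ κ f x * h x) := by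
    intro x; ring
  simp only [h1]
  rw [Finset.sum_sub_distrib, cmn_tower hμ κ f h hh, sub_self]

theorem cmn_var {μ : X → ℝ} (hμ : ∀ x, 0 ≤ μ x) (κ : X → T) (f : X → ℝ) :
    ∑ x, μ x * (f x - cmn μ κ f x) ^ 2 ≤ ∑ x, μ x * f x ^ 2 := by
  have h1 := cmn_orth hμ κ f (cmn μ κ f) (fun x y h => cmn_congr μ κ f h)
  have h2 : ∑ x, μ x * (f x - cmn μ κ f x) ^ 2 = ∑ x, μ x * f x ^ 2 -
      ∑ x, μ x * cmn μ κ f x ^ 2 - 2 * ∑ x, μ x * ((f x - cmn μ κ f x) * cmn μ κ f x) := by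
    rw [Finset.mul_sum, ← Finset.sum_sub_distrib, ← Finset.sum_sub_distrib]
    apply Finset.sum_congr rfl
    intro x _
    ring
  rw [h2, h1]
  have h3 : 0 ≤ ∑ x, μ x * cmn μ κ f x ^ 2 :=
    Finset.sum_nonneg fun x _ => mul_nonneg (hμ x) (sq_nonneg _)
  linarith

end Cond

section Mart

variable {X Y n : Type} [Fintype X] [Fintype n] [DecidableEq n]

open scoped Classical in
/-- the key of the first `i` rounds -/
noncomputable def key (M : X → Y → ℝ) (η : ℕ → Y) (i : ℕ) (x : X) : Fin i → ℝ := fun j => M x (η j)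

theorem key_mono {M : X → Y → ℝ} {η : ℕ → Y} {i : ℕ} {x y : X} (h : key M η i x = key M η i y)
    {j : ℕ} (hj : j ≤ i) : key M η j x = key M η j y := by
  funext k
  exact congrFun h ⟨k, lt_of_lt_of_le k.2 hj⟩

theorem key_at {M : X → Y → ℝ} {η : ℕ → Y} {i : ℕ} {x y : X} (h : key M η i x = key M η i y)
    {j : ℕ} (hj : j < i) : M x (η j) = M y (η j) :=
  congrFun h ⟨j, hj⟩

open scoped Classical in
/-- martingale difference -/
noncomputable def dd (μ : X → ℝ) (M : X → Y → ℝ) (η : ℕ → Y) (i : ℕ) (x : X) : ℝ :=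
  M x (η i) - cmn μ (key M η i) (fun x' => M x' (η i)) x

/-- partial sums -/
noncomputable def SS (μ : X → ℝ) (M : X → Y → ℝ) (η : ℕ → Y) (O : Y → Matrix n n ℝ) (i : ℕ)
    (x : X) : Matrix n n ℝ := ∑ j ∈ range i, dd μ M η j x • O (η j)

theorem dd_congr {μ : X → ℝ} {M : X → Y → ℝ} {η : ℕ → Y} {i : ℕ} {x y : X}
    (h : key M η i x = key M η i y) {j : ℕ} (hj : j < i) : dd μ M η j x = dd μ M η j y := by
  classical
  unfold dd
  rw [key_at h hj, cmn_congr μ (key M η j) _ (key_mono h hj.le)]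

theorem SS_congr {μ : X → ℝ} {M : X → Y → ℝ} {η : ℕ → Y} (O : Y → Matrix n n ℝ) {i : ℕ} {x y : X}
    (h : key M η i x = key M η i y) : SS μ M η O i x = SS μ M η O i y := by
  unfold SS
  apply Finset.sum_congr rfl
  intro j hj
  rw [dd_congr h (Finset.mem_range.mp hj)]

theorem SS_herm {μ : X → ℝ} {M : X → Y → ℝ} {η : ℕ → Y} {O : Y → Matrix n n ℝ}
    (hO : ∀ y, (O y).IsHermitian) (i : ℕ) (x : X) : (SS μ M η O i x).IsHermitian := by
  induction i with
  | zero => simp [SS]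
  | succ i ih =>
    have h1 : SS μ M η O (i + 1) x = SS μ M η O i x + dd μ M η i x • O (η i) := by
      unfold SS
      rw [Finset.sum_range_succ]
    rw [h1]
    exact isHerm_add ih (hO _) _

/-- growth of the potential -/
theorem gp_growth {μ : X → ℝ} (hμ : IsPr μ) {M : X → Y → ℝ} (hM : ∀ x y, |M x y| ≤ 1)
    {O : Y → Matrix n n ℝ} (hO : ∀ y, (O y).IsHermitian) (hO1 : ∀ y, Contr (O y)) {p : ℕ}
    (hp : 1 ≤ p) {ε : ℝ} (hε : 0 < ε) (η : ℕ → Y) (m : ℕ) :
    ∑ x, μ x * gp p ε (SS μ M η O m x) ≤ ε ^ ((1 : ℝ) / p) +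
      (2 * (2 * p - 1) * (Fintype.card n : ℝ) ^ ((1 : ℝ) / p)) * m := by
  classical
  set C : ℝ := 2 * (2 * p - 1) * (Fintype.card n : ℝ) ^ ((1 : ℝ) / p) with hC
  have hC0 : 0 ≤ C := by
    have h1 : (1 : ℝ) ≤ p := by exact_mod_cast hp
    have h2 : (0 : ℝ) ≤ 2 * (p : ℝ) - 1 := by linarith
    rw [hC]
    positivity
  induction m with
  | zero =>
    have h1 : ∀ x, gp p ε (SS μ M η O 0 x) = ε ^ ((1 : ℝ) / p) := by
      intro x
      unfold gp SS
      rw [Finset.range_zero, Finset.sum_empty, zero_pow (by omega : 2 * p ≠ 0)]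
      simp
    simp only [h1]
    rw [← Finset.sum_mul, hμ.sum]
    simp
  | succ m ih =>
    have h1 : ∀ x, SS μ M η O (m + 1) x = SS μ M η O m x + dd μ M η m x • O (η m) := by
      intro x
      unfold SS
      rw [Finset.sum_range_succ]
    have h2 : ∀ x, gp p ε (SS μ M η O (m + 1) x) ≤ gp p ε (SS μ M η O m x) +
        lin p ε (SS μ M η O m x) (O (η m)) * dd μ M η m x + C * dd μ M η m x ^ 2 := by
      intro x
      rw [h1]
      exact gp_step hp hε (SS_herm hO m x) (hO _) (hO1 _) _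
    have h3 : ∑ x, μ x * (dd μ M η m x * lin p ε (SS μ M η O m x) (O (η m))) = 0 := by
      unfold dd
      apply cmn_orth hμ.nonneg (key M η m) (fun x => M x (η m))
        (fun x => lin p ε (SS μ M η O m x) (O (η m)))
      intro x y h
      show lin p ε (SS μ M η O m x) (O (η m)) = lin p ε (SS μ M η O m y) (O (η m))
      rw [SS_congr O h]
    have h4 : ∑ x, μ x * dd μ M η m x ^ 2 ≤ 1 := by
      refine (cmn_var hμ.nonneg (key M η m) (fun x => M x (η m))).trans ?_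
      rw [← hμ.sum]
      apply Finset.sum_le_sum
      intro x _
      have h5 : M x (η m) ^ 2 ≤ 1 := by
        rw [← sq_abs]
        exact pow_le_one₀ (abs_nonneg _) (hM _ _)
      exact mul_le_of_le_one_right (hμ.nonneg x) h5
    calc ∑ x, μ x * gp p ε (SS μ M η O (m + 1) x)
        ≤ ∑ x, (μ x * gp p ε (SS μ M η O m x) +
            μ x * (dd μ M η m x * lin p ε (SS μ M η O m x) (O (η m))) +
            C * (μ x * dd μ M η m x ^ 2)) := by
          apply Finset.sum_le_sum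
          intro x _
          have := mul_le_mul_of_nonneg_left (h2 x) (hμ.nonneg x)
          refine this.trans (le_of_eq ?_)
          ring
      _ = ∑ x, μ x * gp p ε (SS μ M η O m x) + 0 + C * ∑ x, μ x * dd μ M η m x ^ 2 := by
          rw [Finset.sum_add_distrib, Finset.sum_add_distrib, h3, Finset.mul_sum]
      _ ≤ _ := by
          push_cast
          nlinarith [mul_le_mul_of_nonneg_left h4 hC0]

/-- expected quadratic form -/
theorem mart_form {μ : X → ℝ} (hμ : IsPr μ) {M : X → Y → ℝ} (hM : ∀ x y, |M x y| ≤ 1)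
    {O : Y → Matrix n n ℝ} (hO : ∀ y, (O y).IsHermitian) (hO1 : ∀ y, Contr (O y)) {p : ℕ}
    (hp : 1 ≤ p) (η : ℕ → Y) (m : ℕ) (Ψ : X → n → ℝ) (hΨ : ∀ x, Ψ x ⬝ᵥ Ψ x ≤ 1) :
    ∑ x, μ x * |Ψ x ⬝ᵥ (SS μ M η O m x *ᵥ Ψ x)| ≤ Real.sqrt (1 +
      (2 * (2 * p - 1) * (Fintype.card n : ℝ) ^ ((1 : ℝ) / p)) * m) := by
  apply Real.le_sqrt_of_sq_le
  have h1 : (∑ x, μ x * |Ψ x ⬝ᵥ (SS μ M η O m x *ᵥ Ψ x)|) ^ 2 ≤
      ∑ x, μ x * |Ψ x ⬝ᵥ (SS μ M η O m x *ᵥ Ψ x)| ^ 2 := by
    have h := (show ConvexOn ℝ Set.univ (fun t : ℝ => t ^ 2) from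
      (Even.convexOn_pow (by decide : Even 2))).map_sum_le (t := Finset.univ) (w := μ)
      (p := fun x => |Ψ x ⬝ᵥ (SS μ M η O m x *ᵥ Ψ x)|)
      (fun x _ => hμ.nonneg x) hμ.sum (fun x _ => Set.mem_univ _)
    simpa [smul_eq_mul] using h
  refine h1.trans ?_
  have h2 : ∑ x, μ x * |Ψ x ⬝ᵥ (SS μ M η O m x *ᵥ Ψ x)| ^ 2 ≤
      ∑ x, μ x * gp p 1 (SS μ M η O m x) := by
    apply Finset.sum_le_sum
    intro x _
    exact mul_le_mul_of_nonneg_left (form_le hp one_pos (SS_herm hO m x) (hΨ x)) (hμ.nonneg x)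
  refine h2.trans ?_
  have h3 := gp_growth hμ hM hO hO1 hp one_pos η m
  rwa [Real.one_rpow] at h3

end Mart

end Pool.Agent.LRD
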