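import Mathlib

/-!
# Spectral facts for real symmetric matrices: traces of powers
-/

set_option autoImplicit false

open Finset Matrix

namespace Pool.Agent.LRD

variable {n : Type} [Fintype n] [DecidableEq n]

/-- contraction -/
def Contr (O : Matrix n n ℝ) : Prop := ∀ v : n → ℝ, (O *ᵥ v) ⬝ᵥ (O *ᵥ v) ≤ v ⬝ᵥ v

theorem spec {X : Matrix n n ℝ} (hX : X.IsHermitian) :
    ∃ (U : Matrix n n ℝ) (lam : n → ℝ), U * Uᵀ = 1 ∧ Uᵀ * U = 1 ∧
      X = U * diagonal lam * Uᵀ := by
  refine ⟨(hX.eigenvectorUnitary : Matrix n n ℝ), hX.eigenvalues, ?_, ?_, ?_⟩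
  · have h := (Matrix.mem_unitaryGroup_iff (A := (hX.eigenvectorUnitary : Matrix n n ℝ))).mp
      hX.eigenvectorUnitary.2
    rwa [star_eq_conjTranspose, conjTranspose_eq_transpose_of_trivial] at h
  · have h := (Matrix.mem_unitaryGroup_iff' (A := (hX.eigenvectorUnitary : Matrix n n ℝ))).mp
      hX.eigenvectorUnitary.2
    rwa [star_eq_conjTranspose, conjTranspose_eq_transpose_of_trivial] at h
  · have h := hX.spectral_theorem
    rw [Unitary.conjStarAlgAut_apply] at h
    conv_lhs => rw [h]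
    rw [star_eq_conjTranspose, conjTranspose_eq_transpose_of_trivial]
    congr 1

theorem conj_pow {U : Matrix n n ℝ} (h2 : Uᵀ * U = 1) (h1 : U * Uᵀ = 1) (D : Matrix n n ℝ) (k : ℕ) :
    (U * D * Uᵀ) ^ k = U * D ^ k * Uᵀ := by
  induction k with
  | zero => simp [h1]
  | succ k ih =>
    rw [pow_succ, ih, pow_succ]
    calc U * D ^ k * Uᵀ * (U * D * Uᵀ) = U * D ^ k * (Uᵀ * U) * D * Uᵀ := by
          simp only [Matrix.mul_assoc]
      _ = _ := by rw [h2]; simp only [Matrix.mul_assoc, Matrix.one_mul]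

/-- `tr (X^j O X^k O)` in the eigenbasis -/
theorem tr_form {U : Matrix n n ℝ} (h2 : Uᵀ * U = 1) (h1 : U * Uᵀ = 1) (lam : n → ℝ)
    {O : Matrix n n ℝ} (hO : Oᵀ = O) (j k : ℕ) :
    trace ((U * diagonal lam * Uᵀ) ^ j * O * (U * diagonal lam * Uᵀ) ^ k * O) =
      ∑ a, ∑ b, lam a ^ j * lam b ^ k * (Uᵀ * O * U) a b ^ 2 := by
  rw [conj_pow h2 h1, conj_pow h2 h1, diagonal_pow, diagonal_pow]
  set P := Uᵀ * O * U with hP
  have hPs : ∀ a b, P b a = P a b := by
    intro a b
    have : Pᵀ = P := by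
      rw [hP, transpose_mul, transpose_mul, transpose_transpose, hO, Matrix.mul_assoc]
    exact congrFun (congrFun this a) b
  have h3 : trace (U * diagonal (lam ^ j) * Uᵀ * O * (U * diagonal (lam ^ k) * Uᵀ) * O) =
      trace (diagonal (lam ^ j) * P * (diagonal (lam ^ k) * P)) := by
    have h4 : U * diagonal (lam ^ j) * Uᵀ * O * (U * diagonal (lam ^ k) * Uᵀ) * O =
        U * (diagonal (lam ^ j) * Uᵀ * O * U * diagonal (lam ^ k) * Uᵀ * O) := by
      simp only [Matrix.mul_assoc]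
    rw [h4, trace_mul_comm, hP]
    simp only [Matrix.mul_assoc]
  rw [h3]
  unfold trace
  apply Finset.sum_congr rfl
  intro a _
  rw [diag_apply, Matrix.mul_apply]
  apply Finset.sum_congr rfl
  intro b _
  rw [diagonal_mul, diagonal_mul, Pi.pow_apply, Pi.pow_apply, hPs a b]
  ring

theorem contr_row {U O : Matrix n n ℝ} (h2 : Uᵀ * U = 1) (h1 : U * Uᵀ = 1) (hO : Contr O)
    (b : n) : ∑ a, (Uᵀ * O * U) a b ^ 2 ≤ 1 := by
  have h3 : ∑ a, (Uᵀ * O * U) a b ^ 2 = (O *ᵥ (U *ᵥ Pi.single b 1)) ⬝ᵥ (O *ᵥ (U *ᵥ Pi.single b 1)) := by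
    have h4 : ∀ w : n → ℝ, (Uᵀ *ᵥ w) ⬝ᵥ (Uᵀ *ᵥ w) = w ⬝ᵥ w := by
      intro w
      rw [dotProduct_mulVec, vecMul_transpose, mulVec_mulVec, h1, one_mulVec]
    rw [← h4]
    unfold dotProduct
    apply Finset.sum_congr rfl
    intro a _
    rw [mulVec_mulVec, mulVec_mulVec, mulVec_single_one, ← sq]
    rfl
  rw [h3]
  refine (hO _).trans ?_
  have h5 : (U *ᵥ Pi.single b 1) ⬝ᵥ (U *ᵥ Pi.single b 1) = 1 := by
    rw [dotProduct_mulVec, ← mulVec_transpose, mulVec_mulVec, h2, one_mulVec]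
    simp
  rw [h5]

/-- the trace bound for the second derivative -/
theorem tr_bound {X O : Matrix n n ℝ} (hX : X.IsHermitian) (hO : Oᵀ = O) (hO1 : Contr O)
    {j k q : ℕ} (hjk : j + k = 2 * q) :
    trace (X ^ j * O * X ^ k * O) ≤ 2 * trace (X ^ (2 * q)) := by
  obtain ⟨U, lam, h1, h2, rfl⟩ := spec hX
  rw [tr_form h2 h1 lam hO, conj_pow h2 h1, diagonal_pow]
  have h3 : trace (U * diagonal (lam ^ (2 * q)) * Uᵀ) = ∑ a, lam a ^ (2 * q) := by
    rw [trace_mul_comm, ← Matrix.mul_assoc, h2, Matrix.one_mul, trace_diagonal]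
    rfl
  rw [h3]
  set P := Uᵀ * O * U with hP
  have hPs : ∀ a b, P b a = P a b := by
    intro a b
    have : Pᵀ = P := by
      rw [hP, transpose_mul, transpose_mul, transpose_transpose, hO, Matrix.mul_assoc]
    exact congrFun (congrFun this a) b
  have h4 : ∀ a b, lam a ^ j * lam b ^ k ≤ lam a ^ (2 * q) + lam b ^ (2 * q) := by
    intro a b
    have h5 : lam a ^ j * lam b ^ k ≤ |lam a| ^ j * |lam b| ^ k := by
      calc lam a ^ j * lam b ^ k ≤ |lam a ^ j * lam b ^ k| := le_abs_self _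
        _ = _ := by rw [abs_mul, abs_pow, abs_pow]
    have ha : lam a ^ (2 * q) = |lam a| ^ (2 * q) := by
      rw [pow_mul, pow_mul, sq_abs]
    have hb : lam b ^ (2 * q) = |lam b| ^ (2 * q) := by
      rw [pow_mul, pow_mul, sq_abs]
    rw [ha, hb]
    refine h5.trans ?_
    rcases le_total |lam a| |lam b| with h | h
    · calc |lam a| ^ j * |lam b| ^ k ≤ |lam b| ^ j * |lam b| ^ k := by gcongr
        _ = |lam b| ^ (2 * q) := by rw [← pow_add, hjk]
        _ ≤ _ := by
          have : 0 ≤ |lam a| ^ (2 * q) := by positivity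
          linarith
    · calc |lam a| ^ j * |lam b| ^ k ≤ |lam a| ^ j * |lam a| ^ k := by gcongr
        _ = |lam a| ^ (2 * q) := by rw [← pow_add, hjk]
        _ ≤ _ := by
          have : 0 ≤ |lam b| ^ (2 * q) := by positivity
          linarith
  calc ∑ a, ∑ b, lam a ^ j * lam b ^ k * P a b ^ 2
      ≤ ∑ a, ∑ b, (lam a ^ (2 * q) * P a b ^ 2 + lam b ^ (2 * q) * P a b ^ 2) := by
        apply Finset.sum_le_sum
        intro a _
        apply Finset.sum_le_sum
        intro b _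
        rw [← add_mul]
        exact mul_le_mul_of_nonneg_right (h4 a b) (sq_nonneg _)
    _ = (∑ a, lam a ^ (2 * q) * ∑ b, P a b ^ 2) + ∑ b, lam b ^ (2 * q) * ∑ a, P a b ^ 2 := by
        simp only [Finset.sum_add_distrib, Finset.mul_sum]
        congr 1
        rw [Finset.sum_comm]
    _ ≤ (∑ a, lam a ^ (2 * q) * 1) + ∑ b, lam b ^ (2 * q) * 1 := by
        apply add_le_add
        · apply Finset.sum_le_sum
          intro a _
          have h6 : ∑ b, P a b ^ 2 ≤ 1 := by
            have := contr_row h2 h1 hO1 a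
            simp only [← hP] at this
            simpa only [hPs a] using this
          have h7 : 0 ≤ lam a ^ (2 * q) := by rw [pow_mul]; positivity
          exact mul_le_mul_of_nonneg_left h6 h7
        · apply Finset.sum_le_sum
          intro b _
          have h6 := contr_row h2 h1 hO1 b
          have h7 : 0 ≤ lam b ^ (2 * q) := by rw [pow_mul]; positivity
          exact mul_le_mul_of_nonneg_left h6 h7
    _ = 2 * ∑ a, lam a ^ (2 * q) := by simp only [mul_one]; ring

theorem tr_even {X : Matrix n n ℝ} (hX : X.IsHermitian) (q : ℕ) :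
    ∃ lam : n → ℝ, (∀ k, trace (X ^ k) = ∑ a, lam a ^ k) ∧
      ∀ v : n → ℝ, (v ⬝ᵥ v ≤ 1) → 1 ≤ q → |v ⬝ᵥ (X *ᵥ v)| ^ (2 * q) ≤ ∑ a, lam a ^ (2 * q) := by
  obtain ⟨U, lam, h1, h2, rfl⟩ := spec hX
  refine ⟨lam, ?_, ?_⟩
  · intro k
    rw [conj_pow h2 h1, diagonal_pow, trace_mul_comm, ← Matrix.mul_assoc, h2, Matrix.one_mul,
      trace_diagonal]
    rfl
  · intro v hv hq
    set w := Uᵀ *ᵥ v with hw
    have h4 : w ⬝ᵥ w = v ⬝ᵥ v := by
      rw [hw, dotProduct_mulVec, vecMul_transpose, mulVec_mulVec, h1, one_mulVec]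
    have h5 : v ⬝ᵥ ((U * diagonal lam * Uᵀ) *ᵥ v) = ∑ a, lam a * w a ^ 2 := by
      rw [← mulVec_mulVec, ← mulVec_mulVec, ← hw, dotProduct_mulVec, ← mulVec_transpose, ← hw]
      unfold dotProduct
      apply Finset.sum_congr rfl
      intro a _
      rw [mulVec_diagonal]
      ring
    rw [h5]
    have hw1 : ∑ a, w a ^ 2 ≤ 1 := by
      have : ∑ a, w a ^ 2 = w ⬝ᵥ w := by
        unfold dotProduct
        apply Finset.sum_congr rfl
        intro a _
        ring
      rw [this, h4]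
      exact hv
    rcases isEmpty_or_nonempty n with hn | hn
    · simp
      exact (by positivity : (0 : ℝ) ≤ 2 * (q : ℝ)) |> fun _ => by
        rcases Nat.eq_zero_or_pos q with h | h
        · omega
        · rw [zero_pow (by omega)]
    · obtain ⟨a0, -, ha0⟩ := Finset.exists_max_image Finset.univ (fun a => |lam a|)
        Finset.univ_nonempty
      have h6 : |∑ a, lam a * w a ^ 2| ≤ |lam a0| := by
        calc |∑ a, lam a * w a ^ 2| ≤ ∑ a, |lam a * w a ^ 2| := Finset.abs_sum_le_sum_abs _ _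
          _ ≤ ∑ a, |lam a0| * w a ^ 2 := by
              apply Finset.sum_le_sum
              intro a _
              rw [abs_mul, abs_of_nonneg (sq_nonneg (w a))]
              exact mul_le_mul_of_nonneg_right (ha0 a (Finset.mem_univ a)) (sq_nonneg _)
          _ = |lam a0| * ∑ a, w a ^ 2 := by rw [Finset.mul_sum]
          _ ≤ |lam a0| := mul_le_of_le_one_right (abs_nonneg _) hw1
      calc |∑ a, lam a * w a ^ 2| ^ (2 * q) ≤ |lam a0| ^ (2 * q) := by gcongr
        _ = lam a0 ^ (2 * q) := by rw [pow_mul, pow_mul, sq_abs]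
        _ ≤ ∑ a, lam a ^ (2 * q) :=
          Finset.single_le_sum (f := fun a => lam a ^ (2 * q))
            (fun a _ => by show 0 ≤ lam a ^ (2 * q); rw [pow_mul]; positivity) (Finset.mem_univ a0)

end Pool.Agent.LRD
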