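import Pool.Agent.Lib_helper36.LRD.Deriv

/-!
# Two-smoothness of the Schatten norm, in the direction of a contraction
-/

set_option autoImplicit false
set_option linter.unusedSectionVars false

open Finset Matrix

namespace Pool.Agent.LRD

/-- one variable lemma -/
theorem taylor_upper {g g1 g2 : ℝ → ℝ} {C : ℝ} (h1 : ∀ t, HasDerivAt g (g1 t) t)
    (h2 : ∀ t, HasDerivAt g1 (g2 t) t) (hC : ∀ t, g2 t ≤ 2 * C) (s : ℝ) :
    g s ≤ g 0 + g1 0 * s + C * s ^ 2 := by
  set h : ℝ → ℝ := fun t => C * t ^ 2 - g t with hh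
  have hd : ∀ t, HasDerivAt h (2 * C * t - g1 t) t := by
    intro t
    have h3 : HasDerivAt (fun t : ℝ => C * t ^ 2) (C * (2 * t)) t := by
      have := (hasDerivAt_pow 2 t).const_mul C
      simpa using this
    have h4 := h3.sub (h1 t)
    refine h4.congr_deriv ?_
    ring
  have hm : Monotone (fun t => 2 * C * t - g1 t) := by
    have hd2 : ∀ t, HasDerivAt (fun t => 2 * C * t - g1 t) (2 * C - g2 t) t := by
      intro t
      have h3 : HasDerivAt (fun t : ℝ => 2 * C * t) (2 * C) t := by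
        have := (hasDerivAt_id t).const_mul (2 * C)
        simpa using this
      exact h3.sub (h2 t)
    apply monotone_of_deriv_nonneg
    · intro t
      exact (hd2 t).differentiableAt
    · intro t
      rw [(hd2 t).deriv]
      linarith [hC t]
  have key : h 0 + (2 * C * 0 - g1 0) * s ≤ h s := by
    rcases lt_trichotomy s 0 with hs | hs | hs
    · obtain ⟨c, hc, hc1⟩ := exists_hasDerivAt_eq_slope h (fun t => 2 * C * t - g1 t) hs
        (fun t _ => (hd t).continuousAt.continuousWithinAt) (fun t _ => hd t)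
      have h5 := hm hc.2.le
      have h6 : h 0 - h s = (2 * C * c - g1 c) * (0 - s) := by
        rw [hc1]
        have : (0 - s) ≠ 0 := by linarith
        field_simp
      have h7 : (2 * C * c - g1 c) * (0 - s) ≤ (2 * C * 0 - g1 0) * (0 - s) :=
        mul_le_mul_of_nonneg_right h5 (by linarith)
      linarith
    · subst hs
      simp
    · obtain ⟨c, hc, hc1⟩ := exists_hasDerivAt_eq_slope h (fun t => 2 * C * t - g1 t) hs
        (fun t _ => (hd t).continuousAt.continuousWithinAt) (fun t _ => hd t)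
      have h5 := hm hc.1.le
      have h6 : h s - h 0 = (2 * C * c - g1 c) * (s - 0) := by
        rw [hc1]
        have : (s - 0) ≠ 0 := by linarith
        field_simp
      have h7 : (2 * C * 0 - g1 0) * (s - 0) ≤ (2 * C * c - g1 c) * (s - 0) :=
        mul_le_mul_of_nonneg_right h5 (by linarith)
      linarith
  simp only [hh] at key
  nlinarith [key]

variable {n : Type} [Fintype n] [DecidableEq n]

/-- regularised squared Schatten norm -/
noncomputable def gp (p : ℕ) (ε : ℝ) (X : Matrix n n ℝ) : ℝ :=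
  (trace (X ^ (2 * p)) + ε) ^ ((1 : ℝ) / p)

/-- its linear term -/
noncomputable def lin (p : ℕ) (ε : ℝ) (S O : Matrix n n ℝ) : ℝ :=
  ((1 : ℝ) / p) * (trace (S ^ (2 * p)) + ε) ^ ((1 : ℝ) / p - 1) *
    (((2 * p : ℕ) : ℝ) * trace (S ^ (2 * p - 1) * O))

theorem tr_nonneg {X : Matrix n n ℝ} (hX : X.IsHermitian) (p : ℕ) : 0 ≤ trace (X ^ (2 * p)) := by
  obtain ⟨lam, h, -⟩ := tr_even hX p
  rw [h]
  apply Finset.sum_nonneg
  intro a _
  rw [pow_mul]
  positivity

theorem gp_step {p : ℕ} (hp : 1 ≤ p) {ε : ℝ} (hε : 0 < ε) {S O : Matrix n n ℝ}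
    (hS : S.IsHermitian) (hO : O.IsHermitian) (hO1 : Contr O) (s : ℝ) :
    gp p ε (S + s • O) ≤ gp p ε S + lin p ε S O * s +
      (2 * (2 * p - 1) * (Fintype.card n : ℝ) ^ ((1 : ℝ) / p)) * s ^ 2 := by
  have hp0 : (0 : ℝ) < p := by exact_mod_cast hp
  have hp1 : (1 : ℝ) ≤ p := by exact_mod_cast hp
  set α : ℝ := (1 : ℝ) / p with hα
  have hα0 : 0 < α := by positivity
  have hα1 : α ≤ 1 := by
    rw [hα, div_le_one hp0]
    exact hp1
  set N : ℝ := (Fintype.card n : ℝ) with hN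
  set F : ℝ → ℝ := fun t => trace ((S + t • O) ^ (2 * p)) + ε with hF
  set F1 : ℝ → ℝ := fun t => ((2 * p : ℕ) : ℝ) * trace ((S + t • O) ^ (2 * p - 1) * O) with hF1
  set F2 : ℝ → ℝ := fun t => ((2 * p : ℕ) : ℝ) * trace (dpow (S + t • O) O (2 * p - 1) * O) with hF2
  have hX := isHerm_add hS hO
  have hFpos : ∀ t, 0 < F t := by
    intro t
    have := tr_nonneg (hX t) p
    simp only [hF]
    linarith
  have hd1 : ∀ t, HasDerivAt F (F1 t) t := by
    intro t
    exact (hasDeriv_f S O (2 * p) t).add_const ε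
  have hd2 : ∀ t, HasDerivAt F1 (F2 t) t := by
    intro t
    exact (hasDeriv_tr S O O (2 * p - 1) t).const_mul _
  have hg : ∀ t, HasDerivAt (fun t => F t ^ α) (F1 t * α * F t ^ (α - 1)) t := by
    intro t
    exact (hd1 t).rpow_const (Or.inl (hFpos t).ne')
  have hg1 : ∀ t, HasDerivAt (fun t => F1 t * α * F t ^ (α - 1))
      (F2 t * α * F t ^ (α - 1) + F1 t * α * (F1 t * (α - 1) * F t ^ (α - 1 - 1))) t := by
    intro t
    exact ((hd2 t).mul_const α).mul ((hd1 t).rpow_const (Or.inl (hFpos t).ne'))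
  have hbound : ∀ t, F2 t * α * F t ^ (α - 1) + F1 t * α * (F1 t * (α - 1) * F t ^ (α - 1 - 1)) ≤
      2 * (2 * (2 * p - 1) * N ^ α) := by
    intro t
    have h1 : F1 t * α * (F1 t * (α - 1) * F t ^ (α - 1 - 1)) ≤ 0 := by
      have h2 : 0 ≤ F t ^ (α - 1 - 1) := (Real.rpow_pos_of_pos (hFpos t) _).le
      have h3 : F1 t * α * (F1 t * (α - 1) * F t ^ (α - 1 - 1)) =
          -(F1 t ^ 2 * α * (1 - α) * F t ^ (α - 1 - 1)) := by ring
      rw [h3]
      have h4 : 0 ≤ F1 t ^ 2 * α * (1 - α) * F t ^ (α - 1 - 1) := by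
        apply mul_nonneg _ h2
        apply mul_nonneg _ (by linarith)
        positivity
      linarith
    have h2 : F2 t ≤ 2 * p * ((2 * p - 1) * (2 * (N ^ α * F t ^ (1 - α)))) := by
      have h3 := second_bound hS hO hO1 hp t
      have h4 : trace ((S + t • O) ^ (2 * (p - 1))) ≤ N ^ α * F t ^ (1 - α) := by
        obtain ⟨lam, h5, -⟩ := tr_even (hX t) p
        rw [h5]
        refine (power_mean lam hp).trans ?_
        have h6 : (0 : ℝ) ≤ N ^ α := by positivity
        apply mul_le_mul_of_nonneg_left _ h6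
        have h7 : ∑ a, lam a ^ (2 * p) ≤ F t := by
          simp only [hF]
          rw [h5]
          linarith
        have h8 : 0 ≤ ∑ a, lam a ^ (2 * p) := by
          rw [← h5]
          exact tr_nonneg (hX t) p
        exact Real.rpow_le_rpow h8 h7 (by linarith)
      simp only [hF2]
      push_cast
      have h5 : (0 : ℝ) ≤ 2 * p - 1 := by linarith
      have h6 : (2 * (p : ℝ) - 1) * (2 * trace ((S + t • O) ^ (2 * (p - 1)))) ≤
          (2 * p - 1) * (2 * (N ^ α * F t ^ (1 - α))) := by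
        apply mul_le_mul_of_nonneg_left _ h5
        linarith
      apply mul_le_mul_of_nonneg_left (h3.trans h6) (by positivity)
    have h3 : 0 ≤ F t ^ (α - 1) := (Real.rpow_pos_of_pos (hFpos t) _).le
    have h4 : F2 t * α * F t ^ (α - 1) ≤
        2 * p * ((2 * p - 1) * (2 * (N ^ α * F t ^ (1 - α)))) * α * F t ^ (α - 1) := by
      apply mul_le_mul_of_nonneg_right _ h3
      exact mul_le_mul_of_nonneg_right h2 hα0.le
    have h5 : F t ^ (1 - α) * F t ^ (α - 1) = 1 := by
      rw [← Real.rpow_add (hFpos t)]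
      simp
    have h6 : (p : ℝ) * α = 1 := by
      rw [hα]
      field_simp
    have h7 : 2 * p * ((2 * p - 1) * (2 * (N ^ α * F t ^ (1 - α)))) * α * F t ^ (α - 1) =
        2 * (2 * (2 * p - 1) * N ^ α) * (p * α) * (F t ^ (1 - α) * F t ^ (α - 1)) := by ring
    rw [h7, h5, h6, mul_one, mul_one] at h4
    linarith
  have h := taylor_upper hg hg1 hbound s
  have h0 : F 0 = trace (S ^ (2 * p)) + ε := by simp [hF]
  have h01 : F1 0 = ((2 * p : ℕ) : ℝ) * trace (S ^ (2 * p - 1) * O) := by simp [hF1]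
  unfold gp lin
  rw [← h0, ← h01]
  have h2 : F1 0 * α * F 0 ^ (α - 1) = α * F 0 ^ (α - 1) * F1 0 := by ring
  rw [h2] at h
  exact h

/-- the quadratic form is bounded by the potential -/
theorem form_le {p : ℕ} (hp : 1 ≤ p) {ε : ℝ} (hε : 0 < ε) {X : Matrix n n ℝ}
    (hX : X.IsHermitian) {v : n → ℝ} (hv : v ⬝ᵥ v ≤ 1) : |v ⬝ᵥ (X *ᵥ v)| ^ 2 ≤ gp p ε X := by
  obtain ⟨lam, h1, h2⟩ := tr_even hX p
  have h3 := h2 v hv hp
  have hp0 : (0 : ℝ) < p := by exact_mod_cast hp
  unfold gp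
  rw [h1]
  have h4 : |v ⬝ᵥ (X *ᵥ v)| ^ 2 = ((|v ⬝ᵥ (X *ᵥ v)| ^ 2) ^ p) ^ ((1 : ℝ) / p) := by
    rw [one_div, Real.pow_rpow_inv_natCast (sq_nonneg _) (by omega)]
  rw [h4, ← pow_mul]
  apply Real.rpow_le_rpow (by positivity) _ (by positivity)
  linarith

end Pool.Agent.LRD
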